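import Pool.Agent.Retr.Space

/-!
# The real spectrum of a commutative ring, and the test space is not a real spectrum
-/

open Set Filter Topology

namespace Retr

/-- Prime cones of a commutative ring: `P + P ⊆ P`, `P P ⊆ P`, `P ∪ -P` is everything and
`P ∩ -P` is a prime ideal. -/
structure IsPrimeCone {S : Type*} [CommRing S] (P : Set S) : Prop where
  add_mem : ∀ x ∈ P, ∀ y ∈ P, x + y ∈ P
  mul_mem : ∀ x ∈ P, ∀ y ∈ P, x * y ∈ P
  total : ∀ x, x ∈ P ∨ -x ∈ P
  supp : ∃ J : Ideal S, J.IsPrime ∧ ∀ x, x ∈ J ↔ x ∈ P ∧ -x ∈ P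

/-- The real spectrum of a commutative ring. -/
def Sper (S : Type*) [CommRing S] := {P : Set S // IsPrimeCone P}

/-- The topology generated by the sets `{P | -a ∉ P}`. -/
instance Sper.instTopologicalSpace (S : Type*) [CommRing S] : TopologicalSpace (Sper S) :=
  TopologicalSpace.generateFrom (range fun a : S => {P : Sper S | -a ∉ P.1})

section

variable {S : Type*} [CommRing S]

theorem IsPrimeCone.neg_one {P : Set S} (hP : IsPrimeCone P) : (-1 : S) ∉ P := by
  obtain ⟨J, hJ, hJP⟩ := hP.supp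
  intro h
  have h1 : (1 : S) ∈ P := by
    have := hP.mul_mem _ h _ h
    simpa using this
  exact hJ.ne_top ((Ideal.eq_top_iff_one J).2 ((hJP 1).2 ⟨h1, h⟩))

theorem IsPrimeCone.one {P : Set S} (hP : IsPrimeCone P) : (1 : S) ∈ P :=
  (hP.total 1).resolve_right hP.neg_one

theorem IsPrimeCone.zero {P : Set S} (hP : IsPrimeCone P) : (0 : S) ∈ P := by
  rcases hP.total 0 with h | h
  · exact h
  · simpa using h

theorem IsPrimeCone.pow_mem {P : Set S} (hP : IsPrimeCone P) {x : S} (hx : x ∈ P) (n : ℕ) :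
    x ^ n ∈ P := by
  induction n with
  | zero => simpa using hP.one
  | succ n ih => rw [pow_succ]; exact hP.mul_mem _ ih _ hx

theorem IsPrimeCone.sq_mem {P : Set S} (hP : IsPrimeCone P) (x : S) : x * x ∈ P := by
  rcases hP.total x with h | h
  · exact hP.mul_mem _ h _ h
  · have := hP.mul_mem _ h _ h
    simpa using this

/-- The support absorbs multiplication. -/
theorem IsPrimeCone.supp_mul {P : Set S} (hP : IsPrimeCone P) {x : S} (hx : x ∈ P) (hx' : -x ∈ P)
    (y : S) : x * y ∈ P ∧ -(x * y) ∈ P := by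
  obtain ⟨J, hJ, hJP⟩ := hP.supp
  exact (hJP _).1 (J.mul_mem_right y ((hJP x).2 ⟨hx, hx'⟩))

/-- The support is prime. -/
theorem IsPrimeCone.supp_prime {P : Set S} (hP : IsPrimeCone P) {x y : S} (h : x * y ∈ P)
    (h' : -(x * y) ∈ P) : (x ∈ P ∧ -x ∈ P) ∨ (y ∈ P ∧ -y ∈ P) := by
  obtain ⟨J, hJ, hJP⟩ := hP.supp
  rcases hJ.mem_or_mem ((hJP _).2 ⟨h, h'⟩) with h | h
  · exact Or.inl ((hJP _).1 h)
  · exact Or.inr ((hJP _).1 h)

theorem IsPrimeCone.supp_prime_pow {P : Set S} (hP : IsPrimeCone P) {x : S} (n : ℕ)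
    (h' : -(x ^ n) ∈ P) (hx : x ∈ P) : -x ∈ P := by
  induction n with
  | zero => exact absurd (by simpa using h') hP.neg_one
  | succ n ih =>
    rw [pow_succ] at h'
    rcases hP.supp_prime (hP.mul_mem _ (hP.pow_mem hx n) _ hx) h' with h | h
    · exact ih h.2
    · exact h.2

theorem Sper.isOpen_D (a : S) : IsOpen {P : Sper S | -a ∉ P.1} :=
  TopologicalSpace.isOpen_generateFrom_of_mem ⟨a, rfl⟩

theorem Sper.specializes_iff {P Q : Sper S} : P ⤳ Q ↔ P.1 ⊆ Q.1 := by
  constructor
  · intro h a ha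
    by_contra hQ
    have := h.mem_open (Sper.isOpen_D (-a)) (by simpa using hQ)
    exact this (by simpa using ha)
  · intro h
    have : 𝓝 P ≤ 𝓝 Q := by
      rw [TopologicalSpace.nhds_generateFrom (a := Q)]
      refine le_iInf₂ fun s hs => ?_
      obtain ⟨hQ, a, rfl⟩ := hs
      rw [le_principal_iff]
      exact (Sper.isOpen_D a).mem_nhds fun hP => hQ (h hP)
    exact this

theorem Sper.isCompact_D (b : S) : IsCompact {P : Sper S | -b ∉ P.1} := by
  rw [isCompact_iff_ultrafilter_le_nhds]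
  intro f hf
  have hb : ∀ᶠ P in (f : Filter (Sper S)), -b ∉ P.1 := by
    rw [le_principal_iff] at hf; exact hf
  let L : Set S := {x | ∀ᶠ P in (f : Filter (Sper S)), x ∈ P.1}
  have hL : ∀ x, x ∈ L ↔ ∀ᶠ P in (f : Filter (Sper S)), x ∈ P.1 := fun x => Iff.rfl
  have hLp : IsPrimeCone L := by
    refine ⟨?_, ?_, ?_, ?_⟩
    · intro x hx y hy
      have hx' := (hL x).1 hx
      have hy' := (hL y).1 hy
      refine (hL _).2 ?_
      filter_upwards [hx', hy'] with P h1 h2 using P.2.add_mem _ h1 _ h2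
    · intro x hx y hy
      have hx' := (hL x).1 hx
      have hy' := (hL y).1 hy
      refine (hL _).2 ?_
      filter_upwards [hx', hy'] with P h1 h2 using P.2.mul_mem _ h1 _ h2
    · intro x
      have h2 : ∀ᶠ P in (f : Filter (Sper S)), x ∈ P.1 ∨ -x ∈ P.1 :=
        Eventually.of_forall fun P => P.2.total x
      exact Ultrafilter.eventually_or.1 h2
    · refine ⟨⟨⟨⟨{x | x ∈ L ∧ -x ∈ L}, ?_⟩, ?_⟩, ?_⟩, ⟨?_, ?_⟩, fun x => Iff.rfl⟩
      · rintro x y ⟨hx, hx'⟩ ⟨hy, hy'⟩
        refine ⟨?_, ?_⟩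
        · have hx := (hL _).1 hx
          have hy := (hL _).1 hy
          refine (hL _).2 ?_
          filter_upwards [hx, hy] with P h1 h2 using P.2.add_mem _ h1 _ h2
        · have hx' := (hL _).1 hx'
          have hy' := (hL _).1 hy'
          refine (hL _).2 ?_
          filter_upwards [hx', hy'] with P h1 h2
          rw [neg_add]
          exact P.2.add_mem _ h1 _ h2
      · refine ⟨?_, ?_⟩
        · exact (hL _).2 (Eventually.of_forall fun P => P.2.zero)
        · exact (hL _).2 (Eventually.of_forall fun P => by rw [neg_zero]; exact P.2.zero)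
      · rintro c x ⟨hx, hx'⟩
        have hx := (hL _).1 hx
        have hx' := (hL _).1 hx'
        refine ⟨(hL _).2 ?_, (hL _).2 ?_⟩
        · filter_upwards [hx, hx'] with P h1 h2
          have := (P.2.supp_mul h1 h2 c).1
          rwa [mul_comm] at this
        · filter_upwards [hx, hx'] with P h1 h2
          have := (P.2.supp_mul h1 h2 c).2
          rwa [mul_comm] at this
      · intro htop
        have h1 : (1 : S) ∈ L ∧ (-1 : S) ∈ L := by
          have := (Ideal.eq_top_iff_one _).1 htop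
          exact this
        have h2 := (hL _).1 h1.2
        obtain ⟨P, hP⟩ := h2.exists
        exact P.2.neg_one hP
      · rintro x y ⟨h1, h2⟩
        have h1 := (hL _).1 h1
        have h2 := (hL _).1 h2
        have h3 : ∀ᶠ P in (f : Filter (Sper S)), (x ∈ P.1 ∧ -x ∈ P.1) ∨
            (y ∈ P.1 ∧ -y ∈ P.1) := by
          filter_upwards [h1, h2] with P h1 h2 using P.2.supp_prime h1 h2
        rcases Ultrafilter.eventually_or.1 h3 with h | h
        · exact Or.inl ⟨h.mono fun P hP => hP.1, h.mono fun P hP => hP.2⟩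
        · exact Or.inr ⟨h.mono fun P hP => hP.1, h.mono fun P hP => hP.2⟩
  refine ⟨⟨L, hLp⟩, ?_, ?_⟩
  · intro h
    obtain ⟨P, h1, h2⟩ := (hb.and ((hL _).1 h)).exists
    exact h1 h2
  rw [TopologicalSpace.nhds_generateFrom]
  refine le_iInf₂ fun s hs => ?_
  obtain ⟨hQ, a, rfl⟩ := hs
  rw [le_principal_iff]
  have : ¬ ∀ᶠ P in (f : Filter (Sper S)), -a ∈ P.1 := hQ
  exact Ultrafilter.eventually_not.2 this

/-- The cone `{x | -e^m ≤ x for all m}`. -/
def enlargeC (P : Set S) (e : S) : Set S := {x | ∀ m : ℕ, e ^ m + x ∈ P}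

/-- If `e` lies in the support of a larger prime cone `W`, then `enlargeC P e` is a prime cone. -/
theorem enlargeC_isPrime {P W : Set S} (hP : IsPrimeCone P) (hW : IsPrimeCone W) (hPW : P ⊆ W)
    {e : S} (he : e ∈ P) (he' : -e ∉ P) (heW : -e ∈ W) :
    IsPrimeCone (enlargeC P e) ∧ -e ∉ enlargeC P e := by
  have small : ∀ c : S, 1 - c * e ∈ P := by
    intro c
    rcases hP.total (1 - c * e) with h | h
    · exact h
    · exfalso
      have h1 : c * e - 1 ∈ W := by
        have := hPW h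
        rwa [neg_sub] at this
      have h2 : -(c * e) ∈ W := by
        have := (hW.supp_mul (hPW he) heW c).2
        rwa [mul_comm] at this
      have h3 := hW.add_mem _ h1 _ h2
      have : c * e - 1 + -(c * e) = -1 := by ring
      rw [this] at h3
      exact hW.neg_one h3
  have small' : ∀ c : S, 1 + c * e ∈ P := by
    intro c
    have := small (-c)
    have h2 : 1 - -c * e = 1 + c * e := by ring
    rwa [h2] at this
  have hpow : ∀ m, e ^ m ∈ P := fun m => hP.pow_mem he m
  have hpow' : ∀ m, -(e ^ m) ∉ P := fun m h => he' (hP.supp_prime_pow m h he)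
  have hstrict : ∀ m, e ^ (m + 1) - e ^ m ∉ P := by
    intro m h
    have h1 : e ^ m * (1 - e) ∈ P := by
      have := hP.mul_mem _ (hpow m) _ (small 1)
      simpa using this
    have h2 : -(e ^ m * (1 - e)) ∈ P := by
      have : -(e ^ m * (1 - e)) = e ^ (m + 1) - e ^ m := by ring
      rwa [this]
    rcases hP.supp_prime h1 h2 with h3 | h3
    · exact hpow' m h3.2
    · have h4 : e - 1 ∈ W := by
        have := hPW h3.2
        rwa [neg_sub] at this
      have h5 := hW.add_mem _ h4 _ heW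
      have : e - 1 + -e = -1 := by ring
      rw [this] at h5
      exact hW.neg_one h5
  have hsub : ∀ x ∈ P, x ∈ enlargeC P e := fun x hx m => hP.add_mem _ (hpow m) _ hx
  have hadd : ∀ x ∈ enlargeC P e, ∀ y ∈ enlargeC P e, x + y ∈ enlargeC P e := by
    intro x hx y hy m
    have h1 := hP.add_mem _ (hP.add_mem _ (hx (m + 1)) _ (hy (m + 1))) _
      (hP.mul_mem _ (hpow m) _ (small 2))
    have : e ^ (m + 1) + x + (e ^ (m + 1) + y) + e ^ m * (1 - 2 * e) = e ^ m + (x + y) := by
      ring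
    rwa [this] at h1
  have hmul1 : ∀ x, x ∈ enlargeC P e → -x ∈ enlargeC P e → ∀ c, c * x ∈ enlargeC P e := by
    intro x hx hx' c m
    rcases hP.total c with hc | hc
    · have h1 := hP.add_mem _ (hP.mul_mem _ hc _ (hx (m + 1))) _
        (hP.mul_mem _ (hpow m) _ (small c))
      have : c * (e ^ (m + 1) + x) + e ^ m * (1 - c * e) = e ^ m + c * x := by ring
      rwa [this] at h1
    · have h1 := hP.add_mem _ (hP.mul_mem _ hc _ (hx' (m + 1))) _
        (hP.mul_mem _ (hpow m) _ (small' c))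
      have : -c * (e ^ (m + 1) + -x) + e ^ m * (1 + c * e) = e ^ m + c * x := by ring
      rwa [this] at h1
  have hmul2 : ∀ x, x ∈ enlargeC P e → -x ∈ enlargeC P e → ∀ c, -(c * x) ∈ enlargeC P e := by
    intro x hx hx' c
    have := hmul1 x hx hx' (-c)
    have h2 : -c * x = -(c * x) := by ring
    rwa [h2] at this
  have htot : ∀ x, x ∈ enlargeC P e ∨ -x ∈ enlargeC P e := fun x =>
    (hP.total x).imp (hsub x) (hsub (-x))
  -- elements outside the support are larger than some power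
  have hlarge : ∀ x, ¬ (x ∈ enlargeC P e ∧ -x ∈ enlargeC P e) →
      ∃ m : ℕ, x - e ^ m ∈ P ∨ -x - e ^ m ∈ P := by
    intro x hx
    by_contra hcon
    push Not at hcon
    refine hx ⟨fun m => ?_, fun m => ?_⟩
    · rcases hP.total (e ^ m + x) with h | h
      · exact h
      · exfalso
        have : -(e ^ m + x) = -x - e ^ m := by ring
        rw [this] at h
        exact (hcon m).2 h
    · rcases hP.total (e ^ m + -x) with h | h
      · exact h
      · exfalso
        have : -(e ^ m + -x) = x - e ^ m := by ring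
        rw [this] at h
        exact (hcon m).1 h
  refine ⟨⟨hadd, ?_, htot, ?_⟩, ?_⟩
  · intro x hx y hy
    rcases hP.total x with h1 | h1
    · rcases hP.total y with h2 | h2
      · exact hsub _ (hP.mul_mem _ h1 _ h2)
      · exact hmul1 y hy (hsub _ h2) x
    · have := hmul1 x hx (hsub _ h1) y
      rwa [mul_comm] at this
  · refine ⟨⟨⟨⟨{x | x ∈ enlargeC P e ∧ -x ∈ enlargeC P e}, ?_⟩, ?_⟩, ?_⟩, ⟨?_, ?_⟩,
      fun x => Iff.rfl⟩
    · rintro x y ⟨hx, hx'⟩ ⟨hy, hy'⟩
      refine ⟨hadd _ hx _ hy, ?_⟩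
      rw [neg_add]
      exact hadd _ hx' _ hy'
    · refine ⟨hsub _ hP.zero, ?_⟩
      rw [neg_zero]
      exact hsub _ hP.zero
    · rintro c x ⟨hx, hx'⟩
      exact ⟨hmul1 x hx hx' c, hmul2 x hx hx' c⟩
    · intro htop
      have h1 : (1 : S) ∈ enlargeC P e ∧ (-1 : S) ∈ enlargeC P e := by
        have := (Ideal.eq_top_iff_one _).1 htop
        exact this
      have h2 := h1.2 1
      have : e ^ 1 + -1 = e ^ (0 + 1) - e ^ 0 := by ring
      rw [this] at h2
      exact hstrict 0 h2
    · rintro x y ⟨h1, h2⟩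
      by_contra hcon
      have hx : ¬ (x ∈ enlargeC P e ∧ -x ∈ enlargeC P e) := fun h => hcon (Or.inl h)
      have hy : ¬ (y ∈ enlargeC P e ∧ -y ∈ enlargeC P e) := fun h => hcon (Or.inr h)
      obtain ⟨m, hm⟩ := hlarge x hx
      obtain ⟨k, hk⟩ := hlarge y hy
      -- signs
      have sgn : ∀ x' y' : S, x' - e ^ m ∈ P → y' - e ^ k ∈ P →
          -(x' * y') ∈ enlargeC P e → False := by
        intro x' y' hx' hy' h
        have hy'' : y' ∈ P := by
          have := hP.add_mem _ hy' _ (hpow k)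
          simpa using this
        have h3 := hP.add_mem _ (hP.mul_mem _ hx' _ hy'') _ (hP.mul_mem _ (hpow m) _ hy')
        have h4 := hP.add_mem _ h3 _ (h (m + k + 1))
        have : (x' - e ^ m) * y' + e ^ m * (y' - e ^ k) + (e ^ (m + k + 1) + -(x' * y')) =
            e ^ (m + k + 1) - e ^ (m + k) := by ring
        rw [this] at h4
        exact hstrict _ h4
      rcases hm with hm | hm <;> rcases hk with hk | hk
      · exact sgn x y hm hk h2
      · refine sgn x (-y) hm hk ?_
        have : -(x * -y) = x * y := by ring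
        rw [this]; exact h1
      · refine sgn (-x) y hm hk ?_
        have : -(-x * y) = x * y := by ring
        rw [this]; exact h1
      · refine sgn (-x) (-y) hm hk ?_
        have : -(-x * -y) = -(x * y) := by ring
        rw [this]; exact h2
  · intro h
    have h2 := h 2
    have : e ^ 2 + -e = e ^ (1 + 1) - e ^ 1 := by ring
    rw [this] at h2
    exact hstrict 1 h2

theorem sub_enlargeC {P : Set S} (hP : IsPrimeCone P) {e : S} (he : e ∈ P) :
    P ⊆ enlargeC P e := fun _ hx m => hP.add_mem _ (hP.pow_mem he m) _ hx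

/-- **The test space is not a real spectrum.** -/
theorem not_sper {I : Type*} [Uncountable I] (h : Pt I ≃ₜ Sper S) : False := by
  have hle : ∀ {x y : Pt I}, (h x).1 ⊆ (h y).1 ↔ Pt.Le x y := by
    intro x y
    rw [← Sper.specializes_iff, h.isInducing.specializes_iff, specializes_iff_mem_closure,
      Pt.mem_closure_iff]
  have hopen : ∀ a : S, IsOpen {x : Pt I | -a ∉ (h x).1} := fun a =>
    (Sper.isOpen_D a).preimage h.continuous
  have hcomp : ∀ a : S, IsCompact {x : Pt I | -a ∉ (h x).1} := fun a =>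
    h.isClosedEmbedding.isCompact_preimage (Sper.isCompact_D a)
  have h01 : (h Pt.z0).1 ⊆ (h Pt.z1).1 := hle.2 trivial
  have h12 : (h Pt.z1).1 ⊆ (h Pt.z2).1 := hle.2 trivial
  obtain ⟨n1, hn1Z1, hn1Z0⟩ := not_subset.1
    (fun hh => (hle.1 hh : Pt.Le (Pt.z1 : Pt I) Pt.z0))
  obtain ⟨n2, hn2Z2, hn2Z1⟩ := not_subset.1
    (fun hh => (hle.1 hh : Pt.Le (Pt.z2 : Pt I) Pt.z1))
  obtain ⟨e1, rfl⟩ : ∃ e, n1 = -e := ⟨-n1, by simp⟩
  obtain ⟨e2, rfl⟩ : ∃ e, n2 = -e := ⟨-n2, by simp⟩
  have hn2Z0 : -e2 ∉ (h Pt.z0).1 := fun hh => hn2Z1 (h01 hh)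
  have he1Z0 : e1 ∈ (h Pt.z0).1 := ((h Pt.z0).2.total e1).resolve_right hn1Z0
  have he2Z1 : e2 ∈ (h Pt.z1).1 := ((h Pt.z1).2.total e2).resolve_right hn2Z1
  have fin : ∀ a : S, -a ∉ (h Pt.z0).1 → {i : I | -a ∈ (h (Pt.u i)).1}.Finite := by
    intro a ha
    have := (Pt.isOpen_iff.1 (hopen a)).2.2.2.1 ha
    simpa using this
  have f1 := fin e1 hn1Z0
  have f2 := fin e2 hn2Z0
  have f3 : {i : I | -e2 ∉ (h (Pt.w i)).1}.Finite := by
    have := Pt.finite_w (hcomp e2) (by simpa using hn2Z2)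
    simpa using this
  have f4 : ∀ m : ℕ, {i : I | e1 - e2 ^ m ∈ (h (Pt.u i)).1}.Finite := by
    intro m
    have h1 : -(e2 ^ m - e1) ∉ (h Pt.z0).1 := by
      intro hh
      have h2 : e1 - e2 ^ m ∈ (h Pt.z1).1 := by
        have := h01 hh
        rwa [neg_sub] at this
      have h3 := (h Pt.z1).2.add_mem _ h2 _ hn1Z1
      have h4 : e1 - e2 ^ m + -e1 = -(e2 ^ m) := by ring
      rw [h4] at h3
      exact hn2Z1 ((h Pt.z1).2.supp_prime_pow m h3 he2Z1)
    have := fin _ h1
    simpa only [neg_sub] using this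
  have key : ∀ i : I, -e1 ∉ (h (Pt.u i)).1 → -e2 ∉ (h (Pt.u i)).1 → -e2 ∈ (h (Pt.w i)).1 →
      ∃ m : ℕ, e1 - e2 ^ m ∈ (h (Pt.u i)).1 := by
    intro i hi1 hi2 hi3
    by_contra hcon
    push Not at hcon
    have hP := (h (Pt.u i)).2
    have hW := (h (Pt.w i)).2
    have hPW : (h (Pt.u i)).1 ⊆ (h (Pt.w i)).1 := hle.2 rfl
    have heP : e2 ∈ (h (Pt.u i)).1 := (hP.total e2).resolve_right hi2
    obtain ⟨hQ0, hQ1⟩ := enlargeC_isPrime hP hW hPW heP hi2 hi3
    let Q : Sper S := ⟨_, hQ0⟩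
    have hQ : (h (Pt.u i)).1 ⊆ (h (h.symm Q)).1 := by
      rw [h.apply_symm_apply]
      exact sub_enlargeC hP heP
    have hQ' := hle.1 hQ
    have hc1 : -e1 ∈ (h (h.symm Q)).1 := by
      rw [h.apply_symm_apply]
      intro m
      have := (hP.total (e1 - e2 ^ m)).resolve_left (hcon m)
      have h5 : -(e1 - e2 ^ m) = e2 ^ m + -e1 := by ring
      rwa [h5] at this
    have hc2 : -e2 ∉ (h (h.symm Q)).1 := by
      rw [h.apply_symm_apply]
      exact hQ1
    generalize h.symm Q = q at hQ' hc1 hc2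
    cases q with
    | u j =>
      have : i = j := hQ'
      subst this
      exact hi1 hc1
    | w j =>
      have : i = j := hQ'
      subst this
      exact hc2 hi3
    | z0 => exact hQ'
    | z1 => exact hQ'
    | z2 => exact hQ'
  have huniv : (univ : Set I) ⊆ {i : I | -e1 ∈ (h (Pt.u i)).1} ∪
      {i : I | -e2 ∈ (h (Pt.u i)).1} ∪
      {i : I | -e2 ∉ (h (Pt.w i)).1} ∪ ⋃ m : ℕ, {i : I | e1 - e2 ^ m ∈ (h (Pt.u i)).1} := by
    intro i _
    by_cases h1 : -e1 ∈ (h (Pt.u i)).1
    · exact Or.inl (Or.inl (Or.inl h1))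
    by_cases h2 : -e2 ∈ (h (Pt.u i)).1
    · exact Or.inl (Or.inl (Or.inr h2))
    by_cases h3 : -e2 ∈ (h (Pt.w i)).1
    · right
      rw [mem_iUnion]
      exact key i h1 h2 h3
    · exact Or.inl (Or.inr h3)
  have hcount : (univ : Set I).Countable :=
    (((f1.countable.union f2.countable).union f3.countable).union
      (countable_iUnion fun m => (f4 m).countable)).mono huniv
  exact not_countable_univ hcount

end

end Retr
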