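import Pool.Agent.Retr.LSpec
import Pool.Agent.Retr.RSpec

/-!
# The ring / ℓ-group whose spectra retract onto the test space
-/

open Set Filter Topology

namespace Retr

/-- The finite hyperreals. -/
def Vsub : Subring Hyperreal where
  carrier := {x | ∃ n : ℕ, |x| ≤ n}
  zero_mem' := ⟨0, by simp⟩
  one_mem' := ⟨1, by simp⟩
  add_mem' := by
    rintro x y ⟨n, hn⟩ ⟨m, hm⟩
    exact ⟨n + m, (abs_add_le x y).trans (by push_cast; exact add_le_add hn hm)⟩
  neg_mem' := by
    rintro x ⟨n, hn⟩
    exact ⟨n, by rwa [abs_neg]⟩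
  mul_mem' := by
    rintro x y ⟨n, hn⟩ ⟨m, hm⟩
    refine ⟨n * m, ?_⟩
    rw [abs_mul]
    push_cast
    exact mul_le_mul hn hm (abs_nonneg y) (Nat.cast_nonneg n)

/-- The ordered ring of finite hyperreals. -/
abbrev V : Type := Vsub

theorem V.finite (x : V) : ∃ n : ℕ, |x| ≤ n := by
  obtain ⟨x, n, hn⟩ := x
  exact ⟨n, by exact_mod_cast hn⟩

theorem exists_pair : ∃ e1 e2 : Hyperreal, 0 < e1 ∧ 0 < e2 ∧ (∀ m : ℕ, e1 ≤ e2 ^ m) ∧
    ∀ n : ℕ, n * e2 ≤ 1 := by
  refine ⟨Hyperreal.ofSeq fun n => (1 / ((n : ℝ) + 1)) ^ n, Hyperreal.ofSeq fun n =>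
    1 / ((n : ℝ) + 1), ?_, ?_, ?_, ?_⟩
  · have : Hyperreal.ofSeq (fun _ => 0) < Hyperreal.ofSeq fun n => (1 / ((n : ℝ) + 1)) ^ n := by
      rw [Hyperreal.ofSeq_lt_ofSeq]
      exact Eventually.of_forall fun n => by positivity
    exact this
  · have : Hyperreal.ofSeq (fun _ => 0) < Hyperreal.ofSeq fun n => (1 / ((n : ℝ) + 1)) := by
      rw [Hyperreal.ofSeq_lt_ofSeq]
      exact Eventually.of_forall fun n => by positivity
    exact this
  · intro m
    have : Hyperreal.ofSeq (fun n => (1 / ((n : ℝ) + 1)) ^ n) ≤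
        Hyperreal.ofSeq fun n => (1 / ((n : ℝ) + 1)) ^ m := by
      rw [Hyperreal.ofSeq_le_ofSeq]
      refine Eventually.filter_mono Nat.hyperfilter_le_atTop ?_
      filter_upwards [eventually_ge_atTop m] with n hn
      refine pow_le_pow_of_le_one (by positivity) ?_ hn
      rw [div_le_one (by positivity)]
      have : (0 : ℝ) ≤ n := Nat.cast_nonneg n
      linarith
    exact this
  · intro k
    have : Hyperreal.ofSeq (fun n => (k : ℝ) * (1 / ((n : ℝ) + 1))) ≤
        Hyperreal.ofSeq fun _ => 1 := by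
      rw [Hyperreal.ofSeq_le_ofSeq]
      refine Eventually.filter_mono Nat.hyperfilter_le_atTop ?_
      filter_upwards [eventually_ge_atTop k] with n hn
      have h1 : (k : ℝ) ≤ n := by exact_mod_cast hn
      rw [mul_one_div, div_le_one (by positivity)]
      linarith
    exact this

theorem exists_pairV : ∃ e1 e2 : V, 0 < e1 ∧ 0 < e2 ∧ (∀ m : ℕ, e1 ≤ e2 ^ m) ∧
    ∀ n : ℕ, n * e2 ≤ 1 := by
  obtain ⟨e1, e2, h1, h2, h3, h4⟩ := exists_pair
  have b1 : |e1| ≤ (1 : ℕ) := by
    rw [abs_of_pos h1]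
    simpa using h3 0
  have b2 : |e2| ≤ (1 : ℕ) := by
    rw [abs_of_pos h2]
    simpa using h4 1
  refine ⟨⟨e1, 1, b1⟩, ⟨e2, 1, b2⟩, h1, h2, fun m => ?_, fun n => ?_⟩
  · exact h3 m
  · exact h4 n

/-- The infinitesimal element `e1 ≪ e2 ^ m`. -/
noncomputable def e1 : V := exists_pairV.choose

/-- The infinitesimal element `e2`. -/
noncomputable def e2 : V := exists_pairV.choose_spec.choose

theorem e1_pos : 0 < e1 := exists_pairV.choose_spec.choose_spec.1
theorem e2_pos : 0 < e2 := exists_pairV.choose_spec.choose_spec.2.1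
theorem e1_le (m : ℕ) : e1 ≤ e2 ^ m := exists_pairV.choose_spec.choose_spec.2.2.1 m
theorem e2_inf (n : ℕ) : n * e2 ≤ 1 := exists_pairV.choose_spec.choose_spec.2.2.2 n

theorem e1_le_e2 : e1 ≤ e2 := by simpa using e1_le 1
theorem e2_le_one : e2 ≤ 1 := by simpa using e2_inf 1

/-- Convex prime ideals of `V`. -/
structure CP (p : Ideal V) : Prop where
  prime : p.IsPrime
  conv : ∀ x y : V, |x| ≤ |y| → y ∈ p → x ∈ p

/-- Infinitesimals. -/
def p2 : Ideal V where
  carrier := {x | ∀ n : ℕ, n * |x| ≤ 1}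
  zero_mem' := by simp
  add_mem' := by
    intro x y hx hy n
    have h1 : (2 * n : V) * |x| ≤ 1 := by simpa using hx (2 * n)
    have h2 : (2 * n : V) * |y| ≤ 1 := by simpa using hy (2 * n)
    have h3 : (n : V) * |x + y| ≤ n * (|x| + |y|) :=
      mul_le_mul_of_nonneg_left (abs_add_le x y) (Nat.cast_nonneg n)
    have h4 : (2 : V) * (n * |x + y|) ≤ 2 * 1 := by
      calc (2 : V) * (n * |x + y|) ≤ 2 * (n * (|x| + |y|)) :=
            mul_le_mul_of_nonneg_left h3 (by norm_num)
        _ = 2 * n * |x| + 2 * n * |y| := by ring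
        _ ≤ 1 + 1 := add_le_add h1 h2
        _ = 2 * 1 := by norm_num
    exact le_of_mul_le_mul_left h4 (by norm_num)
  smul_mem' := by
    intro c x hx n
    obtain ⟨k, hk⟩ := V.finite c
    have h1 : ((n * k : ℕ) : V) * |x| ≤ 1 := hx (n * k)
    rw [smul_eq_mul, abs_mul]
    calc (n : V) * (|c| * |x|) ≤ n * (k * |x|) :=
          mul_le_mul_of_nonneg_left (mul_le_mul_of_nonneg_right hk (abs_nonneg x))
            (Nat.cast_nonneg n)
      _ = ((n * k : ℕ) : V) * |x| := by push_cast; ring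
      _ ≤ 1 := h1

theorem mem_p2 {x : V} : x ∈ p2 ↔ ∀ n : ℕ, n * |x| ≤ 1 := Iff.rfl

theorem cp2 : CP p2 := by
  refine ⟨⟨?_, ?_⟩, ?_⟩
  · intro h
    have h1 : (1 : V) ∈ p2 := by rw [h]; trivial
    have h2 := mem_p2.1 h1 2
    rw [abs_one, mul_one] at h2
    have h3 : (1 : V) < 2 := by norm_num
    exact absurd h2 (not_le.2 (by exact_mod_cast h3))
  · intro x y hxy
    by_contra hcon
    push Not at hcon
    obtain ⟨hx, hy⟩ := hcon
    rw [mem_p2] at hx hy
    push Not at hx hy
    obtain ⟨n, hn⟩ := hx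
    obtain ⟨m, hm⟩ := hy
    have h1 := mem_p2.1 hxy (n * m)
    have h2 : (1 : V) < n * |x| * (m * |y|) := one_lt_mul_of_lt_of_le hn hm.le
    rw [abs_mul] at h1
    push_cast at h1
    have h3 : (n : V) * |x| * (m * |y|) = n * m * (|x| * |y|) := by ring
    rw [h3] at h2
    exact absurd h1 (not_le.2 h2)
  · intro x y hxy hy n
    exact (mul_le_mul_of_nonneg_left hxy (Nat.cast_nonneg n)).trans (hy n)

/-- Elements below all powers of `e2`. -/
noncomputable def p1 : Ideal V where
  carrier := {x | ∀ m : ℕ, |x| ≤ e2 ^ m}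
  zero_mem' := by
    intro m
    rw [abs_zero]
    exact pow_nonneg e2_pos.le m
  add_mem' := by
    intro x y hx hy m
    have h1 := hx (m + 1)
    have h2 := hy (m + 1)
    calc |x + y| ≤ |x| + |y| := abs_add_le x y
      _ ≤ e2 ^ (m + 1) + e2 ^ (m + 1) := add_le_add h1 h2
      _ = e2 ^ m * ((2 : ℕ) * e2) := by push_cast; ring
      _ ≤ e2 ^ m * 1 := mul_le_mul_of_nonneg_left (e2_inf 2) (pow_nonneg e2_pos.le m)
      _ = e2 ^ m := mul_one _
  smul_mem' := by
    intro c x hx m
    obtain ⟨k, hk⟩ := V.finite c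
    rw [smul_eq_mul, abs_mul]
    calc |c| * |x| ≤ k * e2 ^ (m + 1) :=
          mul_le_mul hk (hx (m + 1)) (abs_nonneg x) (Nat.cast_nonneg k)
      _ = e2 ^ m * (k * e2) := by ring
      _ ≤ e2 ^ m * 1 := mul_le_mul_of_nonneg_left (e2_inf k) (pow_nonneg e2_pos.le m)
      _ = e2 ^ m := mul_one _

theorem mem_p1 {x : V} : x ∈ p1 ↔ ∀ m : ℕ, |x| ≤ e2 ^ m := Iff.rfl

theorem e2_lt_one : e2 < 1 := by
  have h1 := e2_inf 2
  have h2 := e2_pos
  push_cast at h1
  linarith

theorem cp1 : CP p1 := by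
  refine ⟨⟨?_, ?_⟩, ?_⟩
  · intro h
    have h1 : (1 : V) ∈ p1 := by rw [h]; trivial
    have h2 := mem_p1.1 h1 1
    rw [abs_one, pow_one] at h2
    exact absurd h2 (not_le.2 e2_lt_one)
  · intro x y hxy
    by_contra hcon
    push Not at hcon
    obtain ⟨hx, hy⟩ := hcon
    rw [mem_p1] at hx hy
    push Not at hx hy
    obtain ⟨n, hn⟩ := hx
    obtain ⟨m, hm⟩ := hy
    have h1 := mem_p1.1 hxy (n + m)
    rw [abs_mul, pow_add] at h1
    have h2 : e2 ^ n * e2 ^ m < |x| * |y| :=
      mul_lt_mul'' hn hm (pow_nonneg e2_pos.le n) (pow_nonneg e2_pos.le m)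
    exact absurd h1 (not_le.2 h2)
  · intro x y hxy hy n
    exact hxy.trans (hy n)

theorem cp0 : CP (⊥ : Ideal V) := by
  refine ⟨Ideal.isPrime_bot, ?_⟩
  intro x y hxy hy
  rw [Ideal.mem_bot] at hy ⊢
  rw [hy, abs_zero] at hxy
  exact abs_nonpos_iff.1 hxy

theorem p1_le_p2 : p1 ≤ p2 := by
  intro x hx n
  have h1 := mem_p1.1 hx 1
  rw [pow_one] at h1
  exact (mul_le_mul_of_nonneg_left h1 (Nat.cast_nonneg n)).trans (e2_inf n)

theorem e2_mem_p2 : e2 ∈ p2 := by
  intro n
  rw [abs_of_pos e2_pos]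
  exact e2_inf n

theorem e2_notMem_p1 : e2 ∉ p1 := by
  intro h
  have h1 := mem_p1.1 h 2
  rw [abs_of_pos e2_pos, pow_two] at h1
  have h2 : e2 * e2 < e2 * 1 := mul_lt_mul_of_pos_left e2_lt_one e2_pos
  rw [mul_one] at h2
  exact absurd h1 (not_le.2 h2)

theorem e1_mem_p1 : e1 ∈ p1 := by
  intro n
  rw [abs_of_pos e1_pos]
  exact e1_le n

theorem one_notMem_p2 : (1 : V) ∉ p2 := by
  intro h
  exact cp2.prime.ne_top ((Ideal.eq_top_iff_one _).2 h)

/-! ### The lattice-ordered ring of eventually constant families -/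

section

variable (I : Type*)

/-- Families `Option I → V` that are eventually constant with limit the value at `none`. -/
def Asub : Subring (Option I → V) where
  carrier := {f | {i | f (some i) ≠ f none}.Finite}
  zero_mem' := by simp
  one_mem' := by simp
  add_mem' := by
    intro f g hf hg
    refine (hf.union hg).subset fun i hi => ?_
    by_contra hcon
    simp only [mem_union, mem_ofPred_eq, not_or, not_not] at hcon
    exact hi (by simp only [Pi.add_apply]; rw [hcon.1, hcon.2])
  neg_mem' := by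
    intro f hf
    refine hf.subset fun i hi h => hi ?_
    simp only [Pi.neg_apply]; rw [h]
  mul_mem' := by
    intro f g hf hg
    refine (hf.union hg).subset fun i hi => ?_
    by_contra hcon
    simp only [mem_union, mem_ofPred_eq, not_or, not_not] at hcon
    exact hi (by simp only [Pi.mul_apply]; rw [hcon.1, hcon.2])

/-- The lattice-ordered ring of eventually constant families. -/
def A : Type _ := {f : Option I → V // f ∈ Asub I}

noncomputable instance : CommRing (A I) := inferInstanceAs (CommRing (Asub I))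

noncomputable instance : Lattice (A I) := Subtype.lattice
  (by
    intro f g hf hg
    refine ((show Set.Finite _ from hf).union (show Set.Finite _ from hg)).subset fun i hi => ?_
    by_contra hcon
    simp only [mem_union, mem_ofPred_eq, not_or, not_not] at hcon
    exact hi (by simp only [Pi.sup_apply]; rw [hcon.1, hcon.2]))
  (by
    intro f g hf hg
    refine ((show Set.Finite _ from hf).union (show Set.Finite _ from hg)).subset fun i hi => ?_
    by_contra hcon
    simp only [mem_union, mem_ofPred_eq, not_or, not_not] at hcon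
    exact hi (by simp only [Pi.inf_apply]; rw [hcon.1, hcon.2]))

variable {I}

namespace A

theorem le_iff {f g : A I} : f ≤ g ↔ ∀ j, f.1 j ≤ g.1 j := Iff.rfl

@[simp] theorem val_add (f g : A I) (j) : (f + g).1 j = f.1 j + g.1 j := rfl
@[simp] theorem val_sub (f g : A I) (j) : (f - g).1 j = f.1 j - g.1 j := rfl
@[simp] theorem val_mul (f g : A I) (j) : (f * g).1 j = f.1 j * g.1 j := rfl
@[simp] theorem val_neg (f : A I) (j) : (-f).1 j = -f.1 j := rfl
@[simp] theorem val_zero (j) : (0 : A I).1 j = 0 := rfl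
@[simp] theorem val_one (j) : (1 : A I).1 j = 1 := rfl
@[simp] theorem val_sup (f g : A I) (j) : (f ⊔ g).1 j = f.1 j ⊔ g.1 j := rfl
@[simp] theorem val_inf (f g : A I) (j) : (f ⊓ g).1 j = f.1 j ⊓ g.1 j := rfl

theorem ext' {f g : A I} (h : ∀ j, f.1 j = g.1 j) : f = g := Subtype.ext (funext h)

instance : IsOrderedAddMonoid (A I) where
  add_le_add_left := by
    intro a b h c j
    exact add_le_add_left (h j) _

/-- Constant families. -/
def const (c : V) : A I := ⟨fun _ => c, by simp [Asub]⟩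

open Classical in
/-- The family with value `c` at `some i` and `0` elsewhere. -/
noncomputable def single (i : I) (c : V) : A I := ⟨fun j => if j = some i then c else 0, by
  refine (finite_singleton i).subset fun j hj => ?_
  by_contra hne
  apply hj
  have : (some j : Option I) ≠ some i := fun h => hne (Option.some.inj h)
  simp [this]⟩

@[simp] theorem const_val (c : V) (j) : (const c : A I).1 j = c := rfl

@[simp] theorem single_none (i : I) (c : V) : (single i c).1 none = 0 := by
  simp [single]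

@[simp] theorem single_self (i : I) (c : V) : (single i c).1 (some i) = c := by
  simp [single]

theorem single_ne (i : I) (c : V) {j} (h : j ≠ some i) : (single i c).1 j = 0 := by
  simp [single, h]

/-- Evaluation. -/
def ev (j : Option I) : A I →+* V where
  toFun f := f.1 j
  map_zero' := rfl
  map_one' := rfl
  map_add' _ _ := rfl
  map_mul' _ _ := rfl

@[simp] theorem ev_apply (j : Option I) (f : A I) : ev j f = f.1 j := rfl

/-- `1` is a strong unit. -/
theorem bounded (f : A I) : ∃ n : ℕ, |f| ≤ n • (1 : A I) := by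
  have hf : {i | f.1 (some i) ≠ f.1 none}.Finite := f.2
  obtain ⟨c, hc⟩ := (hf.image fun i => |f.1 (some i)|).bddAbove
  obtain ⟨n, hn⟩ := V.finite c
  obtain ⟨m, hm⟩ := V.finite (f.1 none)
  refine ⟨n + m, ?_⟩
  have hval : ∀ k : ℕ, ∀ j, (k • (1 : A I)).1 j = (k : V) := by
    intro k j
    induction k with
    | zero => rw [zero_nsmul, A.val_zero, Nat.cast_zero]
    | succ k ih => rw [succ_nsmul, A.val_add, ih, A.val_one, Nat.cast_succ]
  have hb : ∀ j, |f.1 j| ≤ ((n + m : ℕ) : V) := by
    intro j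
    push_cast
    cases j with
    | none => exact hm.trans (le_add_of_nonneg_left (Nat.cast_nonneg n))
    | some i =>
      by_cases h : f.1 (some i) = f.1 none
      · rw [h]
        exact hm.trans (le_add_of_nonneg_left (Nat.cast_nonneg n))
      · have h1 : |f.1 (some i)| ≤ c := hc ⟨i, h, rfl⟩
        exact (h1.trans ((le_abs_self c).trans hn)).trans
          (le_add_of_nonneg_right (Nat.cast_nonneg m))
  rw [abs_le']
  refine ⟨fun j => ?_, fun j => ?_⟩
  · rw [hval]; exact (le_abs_self _).trans (hb j)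
  · rw [hval]; exact (neg_le_abs _).trans (hb j)

end A

end

end Retr
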