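import Pool.Agent.Retr.Space

/-!
# The ℓ-spectrum of an Abelian ℓ-group, and the test space is not an ℓ-spectrum
-/

open Set Filter Topology

namespace Retr

/-- Prime ℓ-ideals of an Abelian ℓ-group: order-convex ℓ-subgroups `P ≠ G` such that
`x ⊓ y ∈ P` implies `x ∈ P` or `y ∈ P`. -/
structure IsPrimeLIdeal {G : Type*} [AddCommGroup G] [Lattice G] [IsOrderedAddMonoid G]
    (P : AddSubgroup G) : Prop where
  convex : (P : Set G).OrdConnected
  sup_mem : ∀ x ∈ P, ∀ y ∈ P, x ⊔ y ∈ P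
  inf_mem : ∀ x ∈ P, ∀ y ∈ P, x ⊓ y ∈ P
  ne_top : P ≠ ⊤
  prime : ∀ x y, x ⊓ y ∈ P → x ∈ P ∨ y ∈ P

/-- The ℓ-spectrum of an Abelian ℓ-group. -/
def SpecL (G : Type*) [AddCommGroup G] [Lattice G] [IsOrderedAddMonoid G] :=
  {P : AddSubgroup G // IsPrimeLIdeal P}

/-- The hull-kernel topology; `SpecL.isClosed_iff` shows that its closed sets are exactly
the sets `{P | X ⊆ P}`. -/
instance SpecL.instTopologicalSpace (G : Type*) [AddCommGroup G] [Lattice G]
    [IsOrderedAddMonoid G] : TopologicalSpace (SpecL G) :=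
  TopologicalSpace.generateFrom (range fun a : G => {P : SpecL G | a ∉ P.1})

section

variable {G : Type*} [AddCommGroup G] [Lattice G] [IsOrderedAddMonoid G]

theorem IsPrimeLIdeal.of_le {P : AddSubgroup G} (hP : IsPrimeLIdeal P) {x y : G} (h0 : 0 ≤ x)
    (hxy : x ≤ y) (hy : y ∈ P) : x ∈ P :=
  hP.convex.out P.zero_mem hy ⟨h0, hxy⟩

theorem IsPrimeLIdeal.abs_mem {P : AddSubgroup G} (hP : IsPrimeLIdeal P) {x : G} :
    |x| ∈ P ↔ x ∈ P := by
  constructor
  · intro h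
    exact hP.convex.out (P.neg_mem h) h ⟨neg_le.1 (neg_le_abs x), le_abs_self x⟩
  · intro h
    exact hP.sup_mem x h (-x) (P.neg_mem h)

theorem IsPrimeLIdeal.of_abs_le {P : AddSubgroup G} (hP : IsPrimeLIdeal P) {x y : G}
    (hxy : |x| ≤ y) (hy : y ∈ P) : x ∈ P :=
  hP.abs_mem.1 (hP.of_le (abs_nonneg x) hxy hy)

theorem SpecL.isOpen_D (a : G) : IsOpen {P : SpecL G | a ∉ P.1} :=
  TopologicalSpace.isOpen_generateFrom_of_mem ⟨a, rfl⟩

theorem SpecL.isBasis :
    TopologicalSpace.IsTopologicalBasis (range fun a : G => {P : SpecL G | a ∉ P.1}) := by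
  refine ⟨?_, ?_, rfl⟩
  · rintro _ ⟨a, rfl⟩ _ ⟨b, rfl⟩ P ⟨ha, hb⟩
    refine ⟨_, ⟨|a| ⊓ |b|, rfl⟩, ?_, ?_⟩
    · intro h
      rcases P.2.prime _ _ h with h | h
      · exact ha (P.2.abs_mem.1 h)
      · exact hb (P.2.abs_mem.1 h)
    · intro Q hQ
      exact ⟨fun h => hQ (Q.2.of_le (le_inf (abs_nonneg a) (abs_nonneg b)) inf_le_left
          (Q.2.abs_mem.2 h)),
        fun h => hQ (Q.2.of_le (le_inf (abs_nonneg a) (abs_nonneg b)) inf_le_right
          (Q.2.abs_mem.2 h))⟩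
  · rw [sUnion_eq_univ_iff]
    intro P
    obtain ⟨a, ha⟩ : ∃ a : G, a ∉ P.1 := by
      by_contra h
      push Not at h
      exact P.2.ne_top ((AddSubgroup.eq_top_iff' _).2 h)
    exact ⟨_, ⟨a, rfl⟩, ha⟩

/-- The closed sets of `SpecL G` are exactly the sets `{P | X ⊆ P}`. -/
theorem SpecL.isClosed_iff (C : Set (SpecL G)) :
    IsClosed C ↔ ∃ X : Set G, C = {P : SpecL G | X ⊆ (P.1 : Set G)} := by
  constructor
  · intro hC
    refine ⟨{a | {P : SpecL G | a ∉ P.1} ⊆ Cᶜ}, ?_⟩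
    ext P
    constructor
    · intro hP a ha
      by_contra h
      exact ha h hP
    · intro hP
      by_contra h
      obtain ⟨_, ⟨a, rfl⟩, ha, hsub⟩ := SpecL.isBasis.exists_subset_of_mem_open
        (show P ∈ Cᶜ from h) hC.isOpen_compl
      exact ha (hP hsub)
  · rintro ⟨X, rfl⟩
    have : {P : SpecL G | X ⊆ (P.1 : Set G)} = ⋂ a ∈ X, {P : SpecL G | a ∉ P.1}ᶜ := by
      ext P
      simp [subset_def]
    rw [this]
    exact isClosed_biInter fun a _ => (SpecL.isOpen_D a).isClosed_compl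

theorem SpecL.specializes_iff {P Q : SpecL G} : P ⤳ Q ↔ P.1 ≤ Q.1 := by
  constructor
  · intro h a ha
    by_contra hQ
    exact h.mem_open (SpecL.isOpen_D a) hQ ha
  · intro h
    have : 𝓝 P ≤ 𝓝 Q := by
      rw [TopologicalSpace.nhds_generateFrom (a := Q)]
      refine le_iInf₂ fun s hs => ?_
      obtain ⟨hQ, a, rfl⟩ := hs
      rw [le_principal_iff]
      exact (SpecL.isOpen_D a).mem_nhds fun hP => hQ (h hP)
    exact this

theorem SpecL.isCompact_D (b : G) : IsCompact {P : SpecL G | b ∉ P.1} := by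
  rw [isCompact_iff_ultrafilter_le_nhds]
  intro f hf
  have hb : ∀ᶠ P in (f : Filter (SpecL G)), b ∉ P.1 := by
    rw [le_principal_iff] at hf; exact hf
  let L : AddSubgroup G :=
    { carrier := {x | ∀ᶠ P in (f : Filter (SpecL G)), x ∈ P.1}
      zero_mem' := Eventually.of_forall fun P => P.1.zero_mem
      add_mem' := by
        intro x y hx hy
        filter_upwards [hx, hy] with P h1 h2 using P.1.add_mem h1 h2
      neg_mem' := by
        intro x hx
        filter_upwards [hx] with P h1 using P.1.neg_mem h1 }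
  have hL : ∀ x, x ∈ L ↔ ∀ᶠ P in (f : Filter (SpecL G)), x ∈ P.1 := fun x => Iff.rfl
  have hbL : b ∉ L := by
    intro h
    have := (hb.and ((hL b).1 h)).exists
    obtain ⟨P, h1, h2⟩ := this
    exact h1 h2
  have hLp : IsPrimeLIdeal L := by
    refine ⟨⟨?_⟩, ?_, ?_, ?_, ?_⟩
    · intro x hx y hy z hz
      have hx' := (hL x).1 hx
      have hy' := (hL y).1 hy
      refine (hL z).2 ?_
      filter_upwards [hx', hy'] with P h1 h2 using P.2.convex.out h1 h2 hz
    · intro x hx y hy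
      have hx' := (hL x).1 hx
      have hy' := (hL y).1 hy
      refine (hL _).2 ?_
      filter_upwards [hx', hy'] with P h1 h2 using P.2.sup_mem _ h1 _ h2
    · intro x hx y hy
      have hx' := (hL x).1 hx
      have hy' := (hL y).1 hy
      refine (hL _).2 ?_
      filter_upwards [hx', hy'] with P h1 h2 using P.2.inf_mem _ h1 _ h2
    · intro h
      exact hbL (h ▸ AddSubgroup.mem_top b)
    · intro x y hxy
      have h1 := (hL _).1 hxy
      have h2 : ∀ᶠ P in (f : Filter (SpecL G)), x ∈ P.1 ∨ y ∈ P.1 := by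
        filter_upwards [h1] with P h using P.2.prime x y h
      exact Ultrafilter.eventually_or.1 h2
  refine ⟨⟨L, hLp⟩, hbL, ?_⟩
  rw [TopologicalSpace.nhds_generateFrom]
  refine le_iInf₂ fun s hs => ?_
  obtain ⟨hQ, a, rfl⟩ := hs
  rw [le_principal_iff]
  have : ¬ ∀ᶠ P in (f : Filter (SpecL G)), a ∈ P.1 := hQ
  exact Ultrafilter.eventually_not.2 this

/-- The prime ℓ-ideal generated by a prime ℓ-ideal `P` and an element `c ≥ 0`. -/
def enlarge (P : AddSubgroup G) (c : G) : AddSubgroup G where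
  carrier := {x | ∃ p ∈ P, ∃ m : ℕ, |x| ≤ p + m • c}
  zero_mem' := ⟨0, P.zero_mem, 0, by simp⟩
  add_mem' := by
    rintro x y ⟨p, hp, m, hm⟩ ⟨q, hq, n, hn⟩
    refine ⟨p + q, P.add_mem hp hq, m + n, (abs_add_le x y).trans ?_⟩
    calc |x| + |y| ≤ (p + m • c) + (q + n • c) := add_le_add hm hn
      _ = p + q + (m + n) • c := by rw [add_nsmul]; abel
  neg_mem' := by
    rintro x ⟨p, hp, m, hm⟩
    exact ⟨p, hp, m, by rwa [abs_neg]⟩

theorem mem_enlarge {P : AddSubgroup G} {c x : G} :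
    x ∈ enlarge P c ↔ ∃ p ∈ P, ∃ m : ℕ, |x| ≤ p + m • c := Iff.rfl

theorem le_enlarge {P : AddSubgroup G} (hP : IsPrimeLIdeal P) (c : G) : P ≤ enlarge P c := by
  intro x hx
  exact ⟨|x|, hP.abs_mem.2 hx, 0, by simp⟩

theorem mem_enlarge_self {P : AddSubgroup G} {c : G} (hc : 0 ≤ c) : c ∈ enlarge P c :=
  ⟨0, P.zero_mem, 1, by simp [abs_of_nonneg hc]⟩

theorem enlarge_of_abs_le {P : AddSubgroup G} {c x y : G} (hxy : |x| ≤ |y|)
    (hy : y ∈ enlarge P c) : x ∈ enlarge P c := by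
  obtain ⟨p, hp, m, hm⟩ := hy
  exact ⟨p, hp, m, hxy.trans hm⟩

theorem enlarge_abs {P : AddSubgroup G} {c x : G}
    (hx : x ∈ enlarge P c) : |x| ∈ enlarge P c :=
  enlarge_of_abs_le (by rw [abs_abs]) hx

theorem enlarge_isPrime {P : AddSubgroup G} (hP : IsPrimeLIdeal P) (c : G) {b : G}
    (hb : b ∉ enlarge P c) : IsPrimeLIdeal (enlarge P c) := by
  have key : ∀ {x y z : G}, x ∈ enlarge P c → z ∈ enlarge P c → y ≤ |x| + |z| →
      -y ≤ |x| + |z| → y ∈ enlarge P c := by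
    intro x y z hx hz h1 h2
    refine enlarge_of_abs_le (y := |x| + |z|) ?_
      ((enlarge P c).add_mem (enlarge_abs hx) (enlarge_abs hz))
    rw [abs_of_nonneg (add_nonneg (abs_nonneg x) (abs_nonneg z))]
    exact abs_le'.2 ⟨h1, h2⟩
  have l1 : ∀ x z : G, x ≤ |x| + |z| := fun x z =>
    (le_abs_self x).trans (le_add_of_nonneg_right (abs_nonneg z))
  have l2 : ∀ x z : G, z ≤ |x| + |z| := fun x z =>
    (le_abs_self z).trans (le_add_of_nonneg_left (abs_nonneg x))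
  have l3 : ∀ x z : G, -x ≤ |x| + |z| := fun x z =>
    (neg_le_abs x).trans (le_add_of_nonneg_right (abs_nonneg z))
  have l4 : ∀ x z : G, -z ≤ |x| + |z| := fun x z =>
    (neg_le_abs z).trans (le_add_of_nonneg_left (abs_nonneg x))
  refine ⟨⟨?_⟩, ?_, ?_, ?_, ?_⟩
  · intro x hx z hz y hy
    exact key hx hz (hy.2.trans (l2 x z)) ((neg_le_neg hy.1).trans (l3 x z))
  · intro x hx y hy
    exact key hx hy (sup_le (l1 x y) (l2 x y))
      ((neg_le_neg le_sup_left).trans (l3 x y))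
  · intro x hx y hy
    refine key hx hy (inf_le_left.trans (l1 x y)) ?_
    rw [neg_inf]
    exact sup_le (l3 x y) (l4 x y)
  · intro h
    exact hb (h ▸ AddSubgroup.mem_top b)
  · intro x y hxy
    have h0 : (x - x ⊓ y) ⊓ (y - x ⊓ y) ∈ P := by
      have : (x - x ⊓ y) ⊓ (y - x ⊓ y) = 0 := by
        rw [← inf_sub, sub_self]
      rw [this]; exact P.zero_mem
    rcases hP.prime _ _ h0 with h | h
    · left
      have := (enlarge P c).add_mem (le_enlarge hP c h) hxy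
      simpa using this
    · right
      have := (enlarge P c).add_mem (le_enlarge hP c h) hxy
      simpa using this

/-- **The test space is not an ℓ-spectrum.** -/
theorem not_specL {I : Type*} [Uncountable I] (h : Pt I ≃ₜ SpecL G) : False := by
  have hle : ∀ {x y : Pt I}, (h x).1 ≤ (h y).1 ↔ Pt.Le x y := by
    intro x y
    rw [← SpecL.specializes_iff, h.isInducing.specializes_iff, specializes_iff_mem_closure,
      Pt.mem_closure_iff]
  have hopen : ∀ a : G, IsOpen {x : Pt I | a ∉ (h x).1} := fun a =>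
    (SpecL.isOpen_D a).preimage h.continuous
  have hcomp : ∀ a : G, IsCompact {x : Pt I | a ∉ (h x).1} := fun a =>
    h.isClosedEmbedding.isCompact_preimage (SpecL.isCompact_D a)
  have h01 : (h Pt.z0).1 ≤ (h Pt.z1).1 := hle.2 trivial
  obtain ⟨b1', hb1Z1', hb1Z0'⟩ := SetLike.not_le_iff_exists.1
    (fun hh => (hle.1 hh : Pt.Le (Pt.z1 : Pt I) Pt.z0))
  obtain ⟨b2', hb2Z2', hb2Z1'⟩ := SetLike.not_le_iff_exists.1
    (fun hh => (hle.1 hh : Pt.Le (Pt.z2 : Pt I) Pt.z1))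
  obtain ⟨b1, hb1, hb1Z1, hb1Z0⟩ : ∃ b : G, 0 ≤ b ∧ b ∈ (h Pt.z1).1 ∧ b ∉ (h Pt.z0).1 :=
    ⟨|b1'|, abs_nonneg _, (h Pt.z1).2.abs_mem.2 hb1Z1', fun hh =>
      hb1Z0' ((h Pt.z0).2.abs_mem.1 hh)⟩
  obtain ⟨b2, hb2, hb2Z2, hb2Z1⟩ : ∃ b : G, 0 ≤ b ∧ b ∈ (h Pt.z2).1 ∧ b ∉ (h Pt.z1).1 :=
    ⟨|b2'|, abs_nonneg _, (h Pt.z2).2.abs_mem.2 hb2Z2', fun hh =>
      hb2Z1' ((h Pt.z1).2.abs_mem.1 hh)⟩
  have hb2Z0 : b2 ∉ (h Pt.z0).1 := fun hh => hb2Z1 (h01 hh)
  have fin : ∀ a : G, a ∉ (h Pt.z0).1 → {i : I | a ∈ (h (Pt.u i)).1}.Finite := by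
    intro a ha
    have := (Pt.isOpen_iff.1 (hopen a)).2.2.2.1 ha
    simpa using this
  have f1 := fin b1 hb1Z0
  have f2 := fin b2 hb2Z0
  have f3 : {i : I | b2 ∉ (h (Pt.w i)).1}.Finite := by
    have := Pt.finite_w (hcomp b2) (by simpa using hb2Z2)
    simpa using this
  have f4 : ∀ m : ℕ, {i : I | (b2 - m • b1) ⊔ 0 ∈ (h (Pt.u i)).1}.Finite := by
    intro m
    apply fin
    intro hh
    have h1 := h01 hh
    have h2 : (b2 - m • b1) ⊔ 0 + m • b1 ∈ (h Pt.z1).1 :=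
      (h Pt.z1).1.add_mem h1 ((h Pt.z1).1.nsmul_mem hb1Z1 m)
    refine hb2Z1 ((h Pt.z1).2.of_le hb2 ?_ h2)
    have : b2 - m • b1 + m • b1 ≤ (b2 - m • b1) ⊔ 0 + m • b1 :=
      add_le_add_left le_sup_left _
    simpa using this
  have key : ∀ i : I, b1 ∉ (h (Pt.u i)).1 → b2 ∈ (h (Pt.w i)).1 →
      ∃ m : ℕ, (b2 - m • b1) ⊔ 0 ∈ (h (Pt.u i)).1 := by
    intro i hi1 hi3
    by_contra hcon
    push Not at hcon
    have hP := (h (Pt.u i)).2
    have hb : b2 ∉ enlarge (h (Pt.u i)).1 b1 := by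
      rintro ⟨p, hp, m, hm⟩
      rw [abs_of_nonneg hb2] at hm
      refine hcon m (hP.of_le le_sup_right (y := |p|) ?_ (hP.abs_mem.2 hp))
      refine sup_le ?_ (abs_nonneg p)
      exact (sub_le_iff_le_add.2 hm).trans (le_abs_self p)
    let Q : SpecL G := ⟨_, enlarge_isPrime hP b1 hb⟩
    have hQ : (h (Pt.u i)).1 ≤ (h (h.symm Q)).1 := by
      rw [h.apply_symm_apply]
      exact le_enlarge hP b1
    have hQ' := hle.1 hQ
    have hc1 : b1 ∈ (h (h.symm Q)).1 := by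
      rw [h.apply_symm_apply]
      exact mem_enlarge_self hb1
    have hc2 : b2 ∉ (h (h.symm Q)).1 := by
      rw [h.apply_symm_apply]
      exact hb
    generalize h.symm Q = q at hQ' hc1 hc2
    cases q with
    | u j =>
      have : i = j := hQ'
      subst this
      exact hi1 hc1
    | w j =>
      have : i = j := hQ'
      subst this
      exact hc2 hi3
    | z0 => exact hQ'
    | z1 => exact hQ'
    | z2 => exact hQ'
  have huniv : (univ : Set I) ⊆ {i : I | b1 ∈ (h (Pt.u i)).1} ∪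
      {i : I | b2 ∉ (h (Pt.w i)).1} ∪ ⋃ m : ℕ, {i : I | (b2 - m • b1) ⊔ 0 ∈ (h (Pt.u i)).1} := by
    intro i _
    by_cases h1 : b1 ∈ (h (Pt.u i)).1
    · exact Or.inl (Or.inl h1)
    by_cases h3 : b2 ∈ (h (Pt.w i)).1
    · right
      rw [mem_iUnion]
      exact key i h1 h3
    · exact Or.inl (Or.inr h3)
  have hcount : (univ : Set I).Countable :=
    ((f1.countable.union f3.countable).union (countable_iUnion fun m => (f4 m).countable)).mono
      huniv
  exact not_countable_univ hcount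

end

end Retr
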