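import Pool.Agent.Retr.Alg

/-!
# The test space is a retract of the ℓ-spectrum of `A I`
-/

open Set Filter Topology

namespace Retr

variable {I : Type*}

/-- The ℓ-ideal of the families whose value at `j` lies in `p`. -/
def lideal (p : Ideal V) (j : Option I) : AddSubgroup (A I) where
  carrier := {f | f.1 j ∈ p}
  zero_mem' := p.zero_mem
  add_mem' := by intro f g hf hg; exact p.add_mem hf hg
  neg_mem' := by intro f hf; exact p.neg_mem hf

theorem mem_lideal {p : Ideal V} {j : Option I} {f : A I} : f ∈ lideal p j ↔ f.1 j ∈ p := Iff.rfl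

theorem isPrime_lideal {p : Ideal V} (hp : CP p) (j : Option I) :
    IsPrimeLIdeal (lideal p j) := by
  refine ⟨⟨?_⟩, ?_, ?_, ?_, ?_⟩
  · intro x hx z hz y hy
    have h1 : x.1 j ≤ y.1 j := hy.1 j
    have h2 : y.1 j ≤ z.1 j := hy.2 j
    have hx' : x.1 j ∈ p := hx
    have hz' : z.1 j ∈ p := hz
    change y.1 j ∈ p
    rcases le_total 0 (y.1 j) with h | h
    · refine hp.conv _ _ ?_ hz'
      rw [abs_of_nonneg h, abs_of_nonneg (h.trans h2)]
      exact h2
    · refine hp.conv _ _ ?_ hx'
      rw [abs_of_nonpos h, abs_of_nonpos (h1.trans h)]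
      exact neg_le_neg h1
  · intro x hx y hy
    change x.1 j ⊔ y.1 j ∈ p
    rcases le_total (x.1 j) (y.1 j) with h | h
    · rw [sup_eq_right.2 h]; exact hy
    · rw [sup_eq_left.2 h]; exact hx
  · intro x hx y hy
    change x.1 j ⊓ y.1 j ∈ p
    rcases le_total (x.1 j) (y.1 j) with h | h
    · rw [inf_eq_left.2 h]; exact hx
    · rw [inf_eq_right.2 h]; exact hy
  · intro h
    have h1 : (1 : A I) ∈ lideal p j := by rw [h]; trivial
    exact hp.prime.ne_top ((Ideal.eq_top_iff_one _).2 h1)
  · intro x y hxy
    have hxy' : x.1 j ⊓ y.1 j ∈ p := hxy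
    rcases le_total (x.1 j) (y.1 j) with h | h
    · rw [inf_eq_left.2 h] at hxy'; exact Or.inl hxy'
    · rw [inf_eq_right.2 h] at hxy'; exact Or.inr hxy'

theorem one_notMem {P : AddSubgroup (A I)} (hP : IsPrimeLIdeal P) : (1 : A I) ∉ P := by
  intro h
  apply hP.ne_top
  rw [AddSubgroup.eq_top_iff']
  intro f
  obtain ⟨n, hn⟩ := A.bounded f
  exact hP.of_abs_le hn (P.nsmul_mem h n)

/-- If `1_i ∉ P` and `f` is orthogonal to `1_i` then `f ∈ P`. -/
theorem mem_of_orth {P : AddSubgroup (A I)} (hP : IsPrimeLIdeal P) {i : I}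
    (hi : A.single i 1 ∉ P) {f : A I} (hf : f ⊓ A.single i 1 = 0) : f ∈ P := by
  have h : f ⊓ A.single i 1 ∈ P := by rw [hf]; exact P.zero_mem
  exact (hP.prime _ _ h).resolve_right hi

/-- The data of the retraction. -/
noncomputable def dataL (I : Type*) : Pt.Data (SpecL (A I)) I where
  D i := {P | A.single i 1 ∉ P.1}
  E i := {P | A.single i e2 ∉ P.1}
  G := {P | A.const e2 ∉ P.1}
  H := {P | A.const e1 ∉ P.1}
  openD i := SpecL.isOpen_D _
  closedD i := by
    have h : {P : SpecL (A I) | A.single i 1 ∉ P.1} =
        {P : SpecL (A I) | (1 - A.single i 1) ∉ P.1}ᶜ := by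
      ext P
      simp only [mem_ofPred_eq, mem_compl_iff, not_not]
      constructor
      · intro h
        refine mem_of_orth P.2 h (A.ext' fun j => ?_)
        by_cases hj : j = some i
        · subst hj; simp
        · simp [A.single_ne i 1 hj]
      · intro h h'
        have := P.1.add_mem h h'
        rw [sub_add_cancel] at this
        exact one_notMem P.2 this
    rw [h]
    exact (SpecL.isOpen_D _).isClosed_compl
  openE i := SpecL.isOpen_D _
  openG := SpecL.isOpen_D _
  openH := SpecL.isOpen_D _
  disj := by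
    intro i j P hi hj
    by_contra hne
    refine hi (mem_of_orth P.2 hj (A.ext' fun k => ?_))
    by_cases hk : k = some i
    · subst hk
      have : (some i : Option I) ≠ some j := fun h => hne (Option.some.inj h)
      simp [A.single_ne j 1 this]
    · by_cases hk' : k = some j
      · subst hk'
        simp [A.single_ne i 1 hk]
      · simp [A.single_ne i 1 hk, A.single_ne j 1 hk']
  sub := by
    intro i P hP h
    refine hP (P.2.of_le ?_ ?_ h)
    · intro k
      by_cases hk : k = some i
      · subst hk; simpa using e2_pos.le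
      · simp [A.single_ne i e2 hk]
    · intro k
      by_cases hk : k = some i
      · subst hk; simpa using e2_le_one
      · simp [A.single_ne i e2 hk, A.single_ne i 1 hk]
  GD := by
    rintro i P ⟨h1, h2⟩ h3
    apply h1
    have h4 : A.const e2 - A.single i e2 ∈ P.1 := by
      refine mem_of_orth P.2 h2 (A.ext' fun k => ?_)
      by_cases hk : k = some i
      · subst hk; simp
      · simp [A.single_ne i e2 hk, A.single_ne i 1 hk, e2_pos.le]
    have := P.1.add_mem h4 h3
    rwa [sub_add_cancel] at this
  HG := by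
    intro P h1 h2
    refine h1 (P.2.of_le (fun k => ?_) (fun k => ?_) h2)
    · exact e1_pos.le
    · exact e1_le_e2

/-- The section. -/
noncomputable def sigmaL : Pt I → SpecL (A I)
  | Pt.u i => ⟨lideal ⊥ (some i), isPrime_lideal cp0 _⟩
  | Pt.w i => ⟨lideal p2 (some i), isPrime_lideal cp2 _⟩
  | Pt.z0 => ⟨lideal ⊥ none, isPrime_lideal cp0 _⟩
  | Pt.z1 => ⟨lideal p1 none, isPrime_lideal cp1 _⟩
  | Pt.z2 => ⟨lideal p2 none, isPrime_lideal cp2 _⟩

theorem continuous_sigmaL : Continuous (sigmaL : Pt I → SpecL (A I)) := by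
  refine continuous_generateFrom_iff.2 ?_
  rintro _ ⟨a, rfl⟩
  have ha : {i | a.1 (some i) ≠ a.1 none}.Finite := a.2
  rw [Pt.isOpen_iff]
  refine ⟨?_, ?_, ?_, ?_, ?_⟩
  · intro i h h'
    exact h (show a.1 (some i) ∈ p2 from by rw [(show a.1 (some i) = 0 from h')]; exact p2.zero_mem)
  · intro h h'
    exact h (p1_le_p2 h')
  · intro h h'
    exact h (show a.1 none ∈ p1 from by rw [(show a.1 none = 0 from h')]; exact p1.zero_mem)
  · intro h
    refine ha.subset fun i hi heq => hi ?_
    intro h'
    exact h (show a.1 none = 0 from by rw [← heq]; exact h')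
  · intro h
    refine ha.subset fun i hi heq => hi ?_
    intro h'
    exact h (show a.1 none ∈ p2 from by rw [← heq]; exact h')

theorem rho_sigmaL (y : Pt I) : (dataL I).rho (sigmaL y) = y := by
  cases y with
  | u i =>
    apply (dataL I).rho_E
    intro h
    have h1 : (A.single i e2).1 (some i) = 0 := h
    rw [A.single_self] at h1
    exact e2_pos.ne' h1
  | w i =>
    apply (dataL I).rho_D
    · intro h
      have h1 : (A.single i 1).1 (some i) ∈ p2 := h
      rw [A.single_self] at h1
      exact one_notMem_p2 h1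
    · intro h
      apply h
      change (A.single i e2).1 (some i) ∈ p2
      rw [A.single_self]
      exact e2_mem_p2
  | z0 =>
    apply (dataL I).rho_z0
    · intro i h
      apply h
      change (A.single i 1).1 none = 0
      rw [A.single_none]
    · intro h
      exact e1_pos.ne' (show e1 = 0 from h)
  | z1 =>
    apply (dataL I).rho_z1
    · intro i h
      apply h
      change (A.single i 1).1 none ∈ p1
      rw [A.single_none]
      exact p1.zero_mem
    · intro h
      apply h
      exact e1_mem_p1
    · intro h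
      exact e2_notMem_p1 h
  | z2 =>
    apply (dataL I).rho_z2
    · intro i h
      apply h
      change (A.single i 1).1 none ∈ p2
      rw [A.single_none]
      exact p2.zero_mem
    · intro h
      apply h
      exact e2_mem_p2

theorem spectral_sigmaL : IsSpectralMap (sigmaL : Pt I → SpecL (A I)) := by
  refine Pt.spectral_of_generateFrom rfl continuous_sigmaL ?_
  rintro _ ⟨a, rfl⟩
  have ha : {i | a.1 (some i) ≠ a.1 none}.Finite := a.2
  refine Pt.isCompact_of ?_ ?_
  · intro h
    refine ha.subset fun i hi heq => ?_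
    have h1 : a.1 none ∈ p2 := by
      by_contra h2
      exact h h2
    exact hi (show a.1 (some i) ∈ p2 from by rw [heq]; exact h1)
  · intro h
    refine ha.subset fun i hi heq => ?_
    have h1 : a.1 none = 0 := by
      by_contra h2
      exact h h2
    exact hi (show a.1 (some i) = 0 from by rw [heq]; exact h1)

theorem retractL (I : Type*) : IsRetract (range (sigmaL : Pt I → SpecL (A I))) ∧
    IsSpectralMap (Subtype.val : range (sigmaL : Pt I → SpecL (A I)) → SpecL (A I)) ∧
    Nonempty (Pt I ≃ₜ range (sigmaL : Pt I → SpecL (A I))) := by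
  obtain ⟨h1, e, he⟩ := Pt.retract_of_section _ _ (dataL I).continuous_rho continuous_sigmaL
    rho_sigmaL
  exact ⟨h1, Pt.spectral_val spectral_sigmaL e he, ⟨e⟩⟩

end Retr
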