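import Pool.Agent.Retr.Alg

/-!
# The test space is a retract of the real spectrum of `A I`
-/

open Set Filter Topology

namespace Retr

variable {I : Type*}

/-- The cone of the families whose value at `j` is nonnegative modulo `p`. -/
def cone (p : Ideal V) (j : Option I) : Set (A I) := {f | 0 ≤ f.1 j ∨ f.1 j ∈ p}

theorem mem_cone {p : Ideal V} {j : Option I} {f : A I} :
    f ∈ cone p j ↔ 0 ≤ f.1 j ∨ f.1 j ∈ p := Iff.rfl

theorem isPrime_cone {p : Ideal V} (hp : CP p) (j : Option I) : IsPrimeCone (cone p j) := by
  have hadd : ∀ x y : V, 0 ≤ x → y ∈ p → 0 ≤ x + y ∨ x + y ∈ p := by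
    intro x y hx hy
    rcases le_total 0 (x + y) with h | h
    · exact Or.inl h
    · right
      refine hp.conv _ _ ?_ hy
      have hy0 : y ≤ 0 := by linarith
      rw [abs_of_nonpos h, abs_of_nonpos hy0]
      linarith
  refine ⟨?_, ?_, ?_, ?_⟩
  · rintro f hf g hg
    rw [mem_cone] at hf hg ⊢
    rw [A.val_add]
    rcases hf with hf | hf <;> rcases hg with hg | hg
    · exact Or.inl (add_nonneg hf hg)
    · exact hadd _ _ hf hg
    · rw [add_comm]; exact hadd _ _ hg hf
    · exact Or.inr (p.add_mem hf hg)
  · rintro f hf g hg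
    rw [mem_cone] at hf hg ⊢
    rw [A.val_mul]
    rcases hf with hf | hf
    · rcases hg with hg | hg
      · exact Or.inl (mul_nonneg hf hg)
      · exact Or.inr (p.mul_mem_left _ hg)
    · exact Or.inr (p.mul_mem_right _ hf)
  · intro f
    rw [mem_cone, mem_cone, A.val_neg]
    rcases le_total 0 (f.1 j) with h | h
    · exact Or.inl (Or.inl h)
    · exact Or.inr (Or.inl (neg_nonneg.2 h))
  · refine ⟨p.comap (A.ev j), ?_, ?_⟩
    · have := hp.prime
      exact Ideal.comap_isPrime _ _
    · intro f
      rw [Ideal.mem_comap, A.ev_apply, mem_cone, mem_cone, A.val_neg]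
      constructor
      · intro h
        exact ⟨Or.inr h, Or.inr (p.neg_mem h)⟩
      · rintro ⟨h1, h2⟩
        rcases h1 with h1 | h1
        · rcases h2 with h2 | h2
          · have : f.1 j = 0 := le_antisymm (neg_nonneg.1 h2) h1
            rw [this]; exact p.zero_mem
          · have := p.neg_mem h2
            rwa [neg_neg] at this
        · exact h1

theorem single_mem {P : Set (A I)} (hP : IsPrimeCone P) (i : I) : A.single i 1 ∈ P := by
  have h : A.single i 1 * A.single i 1 = A.single i 1 := by
    refine A.ext' fun k => ?_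
    by_cases hk : k = some i
    · subst hk; simp
    · simp [A.single_ne i 1 hk]
  rw [← h]
  exact hP.sq_mem _

/-- If `1_i` is positive and `f 1_i = 0` then `f` lies in the support. -/
theorem supp_of_orth {P : Set (A I)} (hP : IsPrimeCone P) {i : I}
    (hi : -A.single i 1 ∉ P) {f : A I} (hf : f * A.single i 1 = 0) : f ∈ P ∧ -f ∈ P := by
  have h1 : f * A.single i 1 ∈ P := by rw [hf]; exact hP.zero
  have h2 : -(f * A.single i 1) ∈ P := by rw [hf, neg_zero]; exact hP.zero
  rcases hP.supp_prime h1 h2 with h | h
  · exact h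
  · exact absurd h.2 hi

/-- The data of the retraction. -/
noncomputable def dataR (I : Type*) : Pt.Data (Sper (A I)) I where
  D i := {P | -A.single i 1 ∉ P.1}
  E i := {P | -A.single i e2 ∉ P.1}
  G := {P | -A.const e2 ∉ P.1}
  H := {P | -A.const e1 ∉ P.1} ∩ {P | -A.const e2 ∉ P.1}
  openD i := Sper.isOpen_D _
  closedD i := by
    have h : {P : Sper (A I) | -A.single i 1 ∉ P.1} =
        {P : Sper (A I) | -(1 - A.single i 1) ∉ P.1}ᶜ := by
      ext P
      simp only [mem_ofPred_eq, mem_compl_iff, not_not]
      constructor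
      · intro h
        refine (supp_of_orth P.2 h (A.ext' fun j => ?_)).2
        by_cases hj : j = some i
        · subst hj; simp
        · simp [A.single_ne i 1 hj]
      · intro h h'
        have := P.2.add_mem _ h _ h'
        have h2 : -(1 - A.single i 1) + -A.single i 1 = (-1 : A I) := by ring
        rw [h2] at this
        exact P.2.neg_one this
    rw [h]
    exact (Sper.isOpen_D _).isClosed_compl
  openE i := Sper.isOpen_D _
  openG := Sper.isOpen_D _
  openH := (Sper.isOpen_D _).inter (Sper.isOpen_D _)
  disj := by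
    intro i j P hi hj
    by_contra hne
    refine hi (supp_of_orth P.2 hj (A.ext' fun k => ?_)).2
    by_cases hk : k = some i
    · subst hk
      have : (some i : Option I) ≠ some j := fun h => hne (Option.some.inj h)
      simp [A.single_ne j 1 this]
    · simp [A.single_ne i 1 hk]
  sub := by
    intro i P hP h
    apply hP
    have h1 := (P.2.supp_mul (single_mem P.2 i) h (A.const e2)).2
    have h2 : A.single i 1 * A.const e2 = A.single i e2 := by
      refine A.ext' fun k => ?_
      by_cases hk : k = some i
      · subst hk; simp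
      · simp [A.single_ne i 1 hk, A.single_ne i e2 hk]
    rwa [h2] at h1
  GD := by
    rintro i P ⟨h1, h2⟩ h3
    have h4 : A.const e2 * A.single i 1 = A.single i e2 := by
      refine A.ext' fun k => ?_
      by_cases hk : k = some i
      · subst hk; simp
      · simp [A.single_ne i 1 hk, A.single_ne i e2 hk]
    have h5 : A.const e2 ∈ P.1 := (P.2.total _).resolve_right h1
    have h6 := P.2.mul_mem _ h5 _ (single_mem P.2 i)
    have h7 : -(A.const e2 * A.single i 1) ∈ P.1 := by rw [h4]; exact h3
    rcases P.2.supp_prime h6 h7 with h | h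
    · exact h1 h.2
    · exact h2 h.2
  HG := fun P h => h.2

/-- The section. -/
def sigmaR : Pt I → Sper (A I)
  | Pt.u i => ⟨cone ⊥ (some i), isPrime_cone cp0 _⟩
  | Pt.w i => ⟨cone p2 (some i), isPrime_cone cp2 _⟩
  | Pt.z0 => ⟨cone ⊥ none, isPrime_cone cp0 _⟩
  | Pt.z1 => ⟨cone p1 none, isPrime_cone cp1 _⟩
  | Pt.z2 => ⟨cone p2 none, isPrime_cone cp2 _⟩

theorem cone_mono {p q : Ideal V} (h : p ≤ q) (j : Option I) : (cone p j : Set (A I)) ⊆ cone q j :=
  fun _ hf => hf.imp_right fun h' => h h'

theorem continuous_sigmaR : Continuous (sigmaR : Pt I → Sper (A I)) := by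
  refine continuous_generateFrom_iff.2 ?_
  rintro _ ⟨a, rfl⟩
  have ha : {i | a.1 (some i) ≠ a.1 none}.Finite := a.2
  have trans : ∀ (p : Ideal V) (i : I), a.1 (some i) = a.1 none →
      -a ∈ (cone p (some i) : Set (A I)) → -a ∈ (cone p none : Set (A I)) := by
    intro p i heq h
    rw [mem_cone, A.val_neg] at h ⊢
    rwa [← heq]
  rw [Pt.isOpen_iff]
  refine ⟨?_, ?_, ?_, ?_, ?_⟩
  · intro i h h'
    exact h (cone_mono bot_le _ h')
  · intro h h'
    exact h (cone_mono p1_le_p2 _ h')
  · intro h h'
    exact h (cone_mono bot_le _ h')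
  · intro h
    refine ha.subset fun i hi heq => hi ?_
    intro h'
    exact h (trans ⊥ i heq h')
  · intro h
    refine ha.subset fun i hi heq => hi ?_
    intro h'
    exact h (trans p2 i heq h')

theorem rho_sigmaR (y : Pt I) : (dataR I).rho (sigmaR y) = y := by
  have neg_notMem : ∀ (p : Ideal V) (j : Option I) (f : A I), 0 < f.1 j → f.1 j ∉ p →
      -f ∉ (cone p j : Set (A I)) := by
    intro p j f h1 h2 h
    rw [mem_cone, A.val_neg] at h
    rcases h with h | h
    · exact absurd (neg_nonneg.1 h) (not_le.2 h1)
    · have := p.neg_mem h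
      rw [neg_neg] at this
      exact h2 this
  have neg_mem : ∀ (p : Ideal V) (j : Option I) (f : A I), f.1 j ∈ p →
      -f ∈ (cone p j : Set (A I)) := by
    intro p j f h1
    rw [mem_cone, A.val_neg]
    exact Or.inr (p.neg_mem h1)
  have hbot : ∀ x : V, 0 < x → x ∉ (⊥ : Ideal V) := by
    intro x hx h
    rw [Ideal.mem_bot] at h
    exact hx.ne' h
  cases y with
  | u i =>
    apply (dataR I).rho_E
    apply neg_notMem
    · rw [A.single_self]; exact e2_pos
    · rw [A.single_self]; exact hbot _ e2_pos
  | w i =>
    apply (dataR I).rho_D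
    · apply neg_notMem
      · rw [A.single_self]; exact one_pos
      · rw [A.single_self]; exact one_notMem_p2
    · intro h
      apply h
      apply neg_mem
      rw [A.single_self]; exact e2_mem_p2
  | z0 =>
    apply (dataR I).rho_z0
    · intro i h
      apply h
      apply neg_mem
      rw [A.single_none]; exact Ideal.zero_mem _
    · refine ⟨?_, ?_⟩
      · apply neg_notMem
        · exact e1_pos
        · exact hbot _ e1_pos
      · apply neg_notMem
        · exact e2_pos
        · exact hbot _ e2_pos
  | z1 =>
    apply (dataR I).rho_z1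
    · intro i h
      apply h
      apply neg_mem
      rw [A.single_none]; exact Ideal.zero_mem _
    · intro h
      apply h.1
      apply neg_mem
      exact e1_mem_p1
    · apply neg_notMem
      · exact e2_pos
      · exact e2_notMem_p1
  | z2 =>
    apply (dataR I).rho_z2
    · intro i h
      apply h
      apply neg_mem
      rw [A.single_none]; exact Ideal.zero_mem _
    · intro h
      apply h
      apply neg_mem
      exact e2_mem_p2

theorem spectral_sigmaR : IsSpectralMap (sigmaR : Pt I → Sper (A I)) := by
  refine Pt.spectral_of_generateFrom rfl continuous_sigmaR ?_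
  rintro _ ⟨a, rfl⟩
  have ha : {i | a.1 (some i) ≠ a.1 none}.Finite := a.2
  have trans : ∀ (p : Ideal V) (i : I), a.1 (some i) = a.1 none →
      -a ∈ (cone p none : Set (A I)) → -a ∈ (cone p (some i) : Set (A I)) := by
    intro p i heq h
    rw [mem_cone, A.val_neg] at h ⊢
    rwa [heq]
  refine Pt.isCompact_of ?_ ?_
  · intro h
    refine ha.subset fun i hi heq => ?_
    have h1 : -a ∈ (cone p2 none : Set (A I)) := by
      by_contra h2
      exact h h2
    exact hi (trans p2 i heq h1)
  · intro h
    refine ha.subset fun i hi heq => ?_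
    have h1 : -a ∈ (cone ⊥ none : Set (A I)) := by
      by_contra h2
      exact h h2
    exact hi (trans ⊥ i heq h1)

theorem retractR (I : Type*) : IsRetract (range (sigmaR : Pt I → Sper (A I))) ∧
    IsSpectralMap (Subtype.val : range (sigmaR : Pt I → Sper (A I)) → Sper (A I)) ∧
    Nonempty (Pt I ≃ₜ range (sigmaR : Pt I → Sper (A I))) := by
  obtain ⟨h1, e, he⟩ := Pt.retract_of_section _ _ (dataR I).continuous_rho continuous_sigmaR
    rho_sigmaR
  exact ⟨h1, Pt.spectral_val spectral_sigmaR e he, ⟨e⟩⟩

end Retr
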