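import Mathlib

/-!
# Retracts of ℓ-spectra and real spectra: the test space

`Pt I` is the space with points `u i`, `w i` (`i : I`), `z0`, `z1`, `z2`, in which
`u i` specialises to `w i`, `z0` specialises to `z1` and `z1` to `z2`, the `u i` converge to `z0`
and the `w i` converge to `z2`.
-/

open Set Filter Topology

namespace Retr

/-- `Y` is a retract of the ambient space: a subspace with a continuous retraction onto it. -/
def IsRetract {X : Type*} [TopologicalSpace X] (Y : Set X) : Prop :=
  ∃ r : X → Y, Continuous r ∧ ∀ y : Y, r y = y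

/-- Whenever `x, y` lie in the closure of `{z}`, one of them lies in the closure of the other. -/
def ComplNormal (X : Type*) [TopologicalSpace X] : Prop :=
  ∀ x y z : X, x ∈ closure {z} → y ∈ closure {z} → x ∈ closure {y} ∨ y ∈ closure {x}

/-- The points of the test space. -/
inductive Pt (I : Type*) where
  | u : I → Pt I
  | w : I → Pt I
  | z0 : Pt I
  | z1 : Pt I
  | z2 : Pt I

namespace Pt

variable {I : Type*}

instance : TopologicalSpace (Pt I) where
  IsOpen U := (∀ i, w i ∈ U → u i ∈ U) ∧ (z2 ∈ U → z1 ∈ U) ∧ (z1 ∈ U → z0 ∈ U) ∧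
    (z0 ∈ U → {i | u i ∉ U}.Finite) ∧ (z2 ∈ U → {i | w i ∉ U}.Finite)
  isOpen_univ := by simp
  isOpen_inter := by
    rintro s t ⟨a1, a2, a3, a4, a5⟩ ⟨b1, b2, b3, b4, b5⟩
    refine ⟨fun i hi => ⟨a1 i hi.1, b1 i hi.2⟩, fun h => ⟨a2 h.1, b2 h.2⟩,
      fun h => ⟨a3 h.1, b3 h.2⟩, fun h => ?_, fun h => ?_⟩
    · refine ((a4 h.1).union (b4 h.2)).subset ?_
      intro i hi
      by_cases h1 : u i ∈ s
      · exact Or.inr fun h2 => hi ⟨h1, h2⟩
      · exact Or.inl h1
    · refine ((a5 h.1).union (b5 h.2)).subset ?_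
      intro i hi
      by_cases h1 : w i ∈ s
      · exact Or.inr fun h2 => hi ⟨h1, h2⟩
      · exact Or.inl h1
  isOpen_sUnion := by
    intro S hS
    refine ⟨?_, ?_, ?_, ?_, ?_⟩
    · rintro i ⟨U, hU, hi⟩; exact ⟨U, hU, (hS U hU).1 i hi⟩
    · rintro ⟨U, hU, hi⟩; exact ⟨U, hU, (hS U hU).2.1 hi⟩
    · rintro ⟨U, hU, hi⟩; exact ⟨U, hU, (hS U hU).2.2.1 hi⟩
    · rintro ⟨U, hU, hi⟩
      exact ((hS U hU).2.2.2.1 hi).subset fun i h h' => h ⟨U, hU, h'⟩
    · rintro ⟨U, hU, hi⟩
      exact ((hS U hU).2.2.2.2 hi).subset fun i h h' => h ⟨U, hU, h'⟩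

theorem isOpen_iff {U : Set (Pt I)} : IsOpen U ↔
    (∀ i, w i ∈ U → u i ∈ U) ∧ (z2 ∈ U → z1 ∈ U) ∧ (z1 ∈ U → z0 ∈ U) ∧
    (z0 ∈ U → {i | u i ∉ U}.Finite) ∧ (z2 ∈ U → {i | w i ∉ U}.Finite) := Iff.rfl

/-- The order of specialisation. -/
def Le : Pt I → Pt I → Prop
  | u i, u j => i = j
  | u i, w j => i = j
  | w i, w j => i = j
  | z0, z0 => True
  | z0, z1 => True
  | z0, z2 => True
  | z1, z1 => True
  | z1, z2 => True
  | z2, z2 => True
  | _, _ => False

theorem isOpen_compl_le (x : Pt I) : IsOpen {y | ¬ Le x y} := by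
  rw [isOpen_iff]
  cases x with
  | u i => simp [Le]
  | w i => simp [Le]
  | z0 => simp [Le]
  | z1 => simp [Le]
  | z2 => simp [Le]

theorem isClosed_le (x : Pt I) : IsClosed {y | Le x y} :=
  ⟨isOpen_compl_le x⟩

theorem le_refl (x : Pt I) : Le x x := by cases x <;> simp [Le]

theorem mem_of_le {x y : Pt I} (h : Le x y) {U : Set (Pt I)} (hU : IsOpen U) (hy : y ∈ U) :
    x ∈ U := by
  obtain ⟨h1, h2, h3, -, -⟩ := isOpen_iff.1 hU
  cases x <;> cases y <;> simp only [Le] at h <;> first | subst h | skip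
  all_goals first | exact hy | exact h1 _ hy | exact h2 hy | exact h3 hy | exact h3 (h2 hy)

theorem mem_closure_iff {x y : Pt I} : y ∈ closure {x} ↔ Le x y := by
  constructor
  · intro h
    have := closure_minimal (s := {x}) (t := {y | Le x y}) (by simpa using le_refl x)
      (isClosed_le x) h
    exact this
  · intro h
    rw [_root_.mem_closure_iff]
    intro U hU hy
    exact ⟨x, mem_of_le h hU hy, rfl⟩

theorem closure_eq (x : Pt I) : closure {x} = {y | Le x y} := by
  ext y; exact mem_closure_iff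

theorem le_antisymm {x y : Pt I} (h : Le x y) (h' : Le y x) : x = y := by
  cases x <;> cases y <;> simp_all [Le]

theorem complNormal : ComplNormal (Pt I) := by
  intro x y z hx hy
  rw [mem_closure_iff] at hx hy
  rw [mem_closure_iff, mem_closure_iff]
  cases z <;> cases x <;> cases y <;> simp_all [Le]

/-! ### Compactness -/

theorem compact_u (J : Set I) : IsCompact (insert z0 (u '' J) : Set (Pt I)) := by
  have h : Tendsto (fun j : J => (u j.1 : Pt I)) cofinite (𝓝 z0) := by
    rw [tendsto_nhds]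
    intro U hU h0
    have := (isOpen_iff.1 hU).2.2.2.1 h0
    rw [mem_cofinite]
    have h2 : ((fun j : J => (u j.1 : Pt I)) ⁻¹' U)ᶜ = Subtype.val ⁻¹' {i | u i ∉ U} := by
      ext j; simp
    rw [h2]
    exact this.preimage Subtype.val_injective.injOn
  have := h.isCompact_insert_range_of_cofinite
  convert this using 2
  ext x; simp

theorem compact_w (J : Set I) : IsCompact (insert z2 (w '' J) : Set (Pt I)) := by
  have h : Tendsto (fun j : J => (w j.1 : Pt I)) cofinite (𝓝 z2) := by
    rw [tendsto_nhds]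
    intro U hU h0
    have := (isOpen_iff.1 hU).2.2.2.2 h0
    rw [mem_cofinite]
    have h2 : ((fun j : J => (w j.1 : Pt I)) ⁻¹' U)ᶜ = Subtype.val ⁻¹' {i | w i ∉ U} := by
      ext j; simp
    rw [h2]
    exact this.preimage Subtype.val_injective.injOn
  have := h.isCompact_insert_range_of_cofinite
  convert this using 2
  ext x; simp

theorem isCompact_of {K : Set (Pt I)} (h2 : z2 ∉ K → {i | w i ∈ K}.Finite)
    (h0 : z0 ∉ K → {i | u i ∈ K}.Finite) : IsCompact K := by
  have hw : IsCompact (K ∩ (insert z2 (w '' {i | w i ∈ K}))) := by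
    by_cases h : z2 ∈ K
    · rw [inter_eq_self_of_subset_right]
      · exact compact_w _
      · rintro x (rfl | ⟨i, hi, rfl⟩)
        · exact h
        · exact hi
    · exact (((h2 h).image w).insert z2).subset inter_subset_right |>.isCompact
  have hu : IsCompact (K ∩ (insert z0 (u '' {i | u i ∈ K}))) := by
    by_cases h : z0 ∈ K
    · rw [inter_eq_self_of_subset_right]
      · exact compact_u _
      · rintro x (rfl | ⟨i, hi, rfl⟩)
        · exact h
        · exact hi
    · exact (((h0 h).image u).insert z0).subset inter_subset_right |>.isCompact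
  have h1 : IsCompact (K ∩ {z1}) := ((finite_singleton z1).subset inter_subset_right).isCompact
  have : K = (K ∩ (insert z2 (w '' {i | w i ∈ K}))) ∪ (K ∩ (insert z0 (u '' {i | u i ∈ K}))) ∪
      (K ∩ {z1}) := by
    ext x
    cases x <;> simp
  rw [this]
  exact (hw.union hu).union h1

/-- A compact set missing `z2` contains only finitely many `w i`. -/
theorem finite_w {K : Set (Pt I)} (hK : IsCompact K) (h2 : z2 ∉ K) : {i | w i ∈ K}.Finite := by
  classical
  let V : Option I → Set (Pt I) := fun o => o.elim {x | x = z0 ∨ x = z1 ∨ ∃ i, x = u i}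
    (fun i => {u i, w i})
  have hV : ∀ o, IsOpen (V o) := by
    rintro (_ | i)
    · rw [isOpen_iff]; simp [V]
    · rw [isOpen_iff]; simp [V]
  have hc : K ⊆ ⋃ o, V o := by
    intro x hx
    rw [mem_iUnion]
    cases x with
    | u i => exact ⟨none, by simp [V]⟩
    | w i => exact ⟨some i, by simp [V]⟩
    | z0 => exact ⟨none, by simp [V]⟩
    | z1 => exact ⟨none, by simp [V]⟩
    | z2 => exact absurd hx h2
  obtain ⟨t, ht⟩ := hK.elim_finite_subcover V hV hc
  refine ((t.finite_toSet.preimage (Option.some_injective I).injOn)).subset ?_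
  intro i hi
  obtain ⟨o, ho, hio⟩ := mem_iUnion₂.1 (ht hi)
  cases o with
  | none => simp [V] at hio
  | some j =>
    simp only [V, Option.elim, mem_insert_iff, mem_singleton_iff] at hio
    have : i = j := by
      rcases hio with h | h
      · exact absurd h (by simp)
      · exact Pt.w.inj h
    subst this
    exact ho

/-- A compact open set missing `z0` contains only finitely many `u i`. -/
theorem finite_u {K : Set (Pt I)} (hK : IsCompact K) (hO : IsOpen K) (h0 : z0 ∉ K) :
    {i | u i ∈ K}.Finite := by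
  classical
  have h1 : z1 ∉ K := fun h => h0 ((isOpen_iff.1 hO).2.2.1 h)
  have h2 : z2 ∉ K := fun h => h1 ((isOpen_iff.1 hO).2.1 h)
  let V : I → Set (Pt I) := fun i => {u i, w i}
  have hV : ∀ o, IsOpen (V o) := by
    intro i
    rw [isOpen_iff]; simp [V]
  have hc : K ⊆ ⋃ o, V o := by
    intro x hx
    rw [mem_iUnion]
    cases x with
    | u i => exact ⟨i, by simp [V]⟩
    | w i => exact ⟨i, by simp [V]⟩
    | z0 => exact absurd hx h0
    | z1 => exact absurd hx h1
    | z2 => exact absurd hx h2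
  obtain ⟨t, ht⟩ := hK.elim_finite_subcover V hV hc
  refine t.finite_toSet.subset ?_
  intro i hi
  obtain ⟨j, hj, hij⟩ := mem_iUnion₂.1 (ht hi)
  simp only [V, mem_insert_iff, mem_singleton_iff] at hij
  have : i = j := by
    rcases hij with h | h
    · exact Pt.u.inj h
    · exact absurd h (by simp)
  subst this
  exact hj

instance : T0Space (Pt I) := by
  refine ⟨fun x y h => ?_⟩
  have h1 : y ∈ closure {x} := by
    have := h.specializes
    exact specializes_iff_mem_closure.1 this
  have h2 : x ∈ closure {y} := by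
    have := h.symm.specializes
    exact specializes_iff_mem_closure.1 this
  exact le_antisymm (mem_closure_iff.1 h1) (mem_closure_iff.1 h2)

instance : CompactSpace (Pt I) := ⟨isCompact_of (by simp) (by simp)⟩

instance : QuasiSeparatedSpace (Pt I) := by
  refine ⟨fun U V hU hUc hV hVc => isCompact_of (fun h => ?_) (fun h => ?_)⟩
  · by_cases h1 : z2 ∈ U
    · exact (finite_w hVc fun h2 => h ⟨h1, h2⟩).subset fun i hi => hi.2
    · exact (finite_w hUc h1).subset fun i hi => hi.1
  · by_cases h1 : z0 ∈ U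
    · exact (finite_u hVc hV fun h2 => h ⟨h1, h2⟩).subset fun i hi => hi.2
    · exact (finite_u hUc hU h1).subset fun i hi => hi.1

instance : PrespectralSpace (Pt I) := by
  refine ⟨TopologicalSpace.isTopologicalBasis_of_isOpen_of_nhds (fun U h => h.1) ?_⟩
  intro x U hx hU
  obtain ⟨h1, h2, h3, h4, h5⟩ := isOpen_iff.1 hU
  cases x with
  | u i =>
    refine ⟨{u i}, ⟨by rw [isOpen_iff]; simp, (finite_singleton _).isCompact⟩, rfl, by simpa⟩
  | w i =>
    refine ⟨{u i, w i}, ⟨by rw [isOpen_iff]; simp, (toFinite _).isCompact⟩, by simp, ?_⟩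
    rintro x (rfl | rfl)
    · exact h1 i hx
    · exact hx
  | z0 =>
    refine ⟨{x | x ∈ U ∧ (x = z0 ∨ ∃ i, x = u i)}, ⟨?_, isCompact_of (by simp) (by simp [hx])⟩,
      by simp [hx], fun x hx => hx.1⟩
    rw [isOpen_iff]
    simp only [reduceCtorEq, exists_false, or_self, and_false, mem_ofPred_eq, false_imp_iff,
      u.injEq, exists_eq', or_true, and_true, true_and, implies_true, true_or]
    intro h
    exact h4 h
  | z1 =>
    refine ⟨{x | x ∈ U ∧ (x = z0 ∨ x = z1 ∨ ∃ i, x = u i)},
      ⟨?_, isCompact_of (by simp) (by simp [h3 hx])⟩,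
      by simp [hx], fun x hx => hx.1⟩
    rw [isOpen_iff]
    simp only [reduceCtorEq, exists_false, or_self, and_false, mem_ofPred_eq, false_imp_iff,
      u.injEq, exists_eq', or_true, and_true, true_and, implies_true, true_or]
    exact ⟨h3, h4⟩
  | z2 =>
    exact ⟨U, ⟨hU, isCompact_of (fun h => absurd hx h) (fun h => absurd (h3 (h2 hx)) h)⟩, hx,
      subset_rfl⟩

instance : QuasiSober (Pt I) := by
  refine ⟨fun {S} hS hC => ?_⟩
  have key : ∀ i, (u i ∈ S ∨ w i ∈ S) → S ⊆ {u i, w i} := by
    intro i hi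
    by_contra hne
    obtain ⟨x, hx, hx'⟩ := not_subset.1 hne
    have hO : IsOpen ({u i, w i} : Set (Pt I)) := by rw [isOpen_iff]; simp
    have hO' : IsOpen ({u i, w i}ᶜ : Set (Pt I)) := by
      rw [isOpen_iff]
      simp
    have := hS.2 _ _ hO hO' (by
      rcases hi with h | h
      · exact ⟨_, h, by simp⟩
      · exact ⟨_, h, by simp⟩) ⟨x, hx, hx'⟩
    obtain ⟨y, -, hy, hy'⟩ := this
    exact hy' hy
  have gen : ∀ x ∈ S, (∀ y ∈ S, Le x y) → ∃ x, IsGenericPoint x S := by
    intro x hx h
    refine ⟨x, ?_⟩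
    rw [isGenericPoint_def]
    refine subset_antisymm (closure_minimal (by simpa using hx) hC) ?_
    intro y hy
    rw [mem_closure_iff]
    exact h y hy
  by_cases h : ∃ i, u i ∈ S ∨ w i ∈ S
  · obtain ⟨i, hi⟩ := h
    have hSi := key i hi
    by_cases hu : u i ∈ S
    · refine gen (u i) hu fun y hy => ?_
      rcases hSi hy with rfl | rfl <;> simp [Le]
    · refine gen (w i) (hi.resolve_left hu) fun y hy => ?_
      rcases hSi hy with rfl | rfl
      · exact absurd hy hu
      · simp [Le]
  · push Not at h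
    have hz : ∀ x ∈ S, x = z0 ∨ x = z1 ∨ x = z2 := by
      intro x hx
      cases x with
      | u i => exact absurd hx (h i).1
      | w i => exact absurd hx (h i).2
      | _ => simp
    by_cases a0 : z0 ∈ S
    · refine gen z0 a0 fun y hy => ?_
      rcases hz y hy with rfl | rfl | rfl <;> simp [Le]
    by_cases a1 : z1 ∈ S
    · refine gen z1 a1 fun y hy => ?_
      rcases hz y hy with rfl | rfl | rfl
      · exact absurd hy a0
      · simp [Le]
      · simp [Le]
    obtain ⟨x, hx⟩ := hS.1
    refine gen x hx fun y hy => ?_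
    have e : ∀ x ∈ S, x = z2 := by
      intro x hx
      rcases hz x hx with rfl | rfl | rfl
      · exact absurd hx a0
      · exact absurd hx a1
      · rfl
    rw [e x hx, e y hy]
    simp [Le]

theorem spectralSpace : SpectralSpace (Pt I) where

theorem spectralSpace_of_homeo {Y : Type*} [TopologicalSpace Y] (e : Pt I ≃ₜ Y) :
    SpectralSpace Y := by
  have := spectralSpace (I := I)
  have : CompactSpace Y := e.compactSpace
  exact e.symm.isOpenEmbedding.spectralSpace

theorem complNormal_of_homeo {Y : Type*} [TopologicalSpace Y] (e : Pt I ≃ₜ Y) :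
    ComplNormal Y := by
  have key : ∀ x y : Y, x ∈ closure {y} ↔ e.symm x ∈ closure {e.symm y} := by
    intro x y
    rw [← specializes_iff_mem_closure, ← specializes_iff_mem_closure,
      e.symm.isInducing.specializes_iff]
  intro x y z hx hy
  rw [key] at hx hy
  rw [key x y, key y x]
  exact complNormal _ _ _ hx hy

/-! ### The retraction -/

section Retraction

variable {X : Type*} [TopologicalSpace X]

/-- The data from which a continuous map onto `Pt I` is built. -/
structure Data (X : Type*) [TopologicalSpace X] (I : Type*) where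
  D : I → Set X
  E : I → Set X
  G : Set X
  H : Set X
  openD : ∀ i, IsOpen (D i)
  closedD : ∀ i, IsClosed (D i)
  openE : ∀ i, IsOpen (E i)
  openG : IsOpen G
  openH : IsOpen H
  disj : ∀ i j x, x ∈ D i → x ∈ D j → i = j
  sub : ∀ i, E i ⊆ D i
  GD : ∀ i, G ∩ D i ⊆ E i
  HG : H ⊆ G

open Classical in
/-- The map defined by the data. -/
noncomputable def Data.rho (d : Data X I) (x : X) : Pt I :=
  if h : ∃ i, x ∈ d.D i then (if x ∈ d.E h.choose then u h.choose else w h.choose)
  else if x ∈ d.H then z0 else if x ∈ d.G then z1 else z2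

theorem Data.rho_E (d : Data X I) {i x} (h : x ∈ d.E i) : d.rho x = u i := by
  classical
  have hx : ∃ i, x ∈ d.D i := ⟨i, d.sub i h⟩
  have : hx.choose = i := d.disj _ _ x hx.choose_spec (d.sub i h)
  rw [Data.rho, dif_pos hx, this, if_pos h]

theorem Data.rho_D (d : Data X I) {i x} (h : x ∈ d.D i) (h' : x ∉ d.E i) : d.rho x = w i := by
  classical
  have hx : ∃ i, x ∈ d.D i := ⟨i, h⟩
  have : hx.choose = i := d.disj _ _ x hx.choose_spec h
  rw [Data.rho, dif_pos hx, this, if_neg h']

theorem Data.rho_z0 (d : Data X I) {x} (h : ∀ i, x ∉ d.D i) (h' : x ∈ d.H) : d.rho x = z0 := by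
  classical
  rw [Data.rho, dif_neg (by push Not; exact h), if_pos h']

theorem Data.rho_z1 (d : Data X I) {x} (h : ∀ i, x ∉ d.D i) (h' : x ∉ d.H) (h'' : x ∈ d.G) :
    d.rho x = z1 := by
  classical
  rw [Data.rho, dif_neg (by push Not; exact h), if_neg h', if_pos h'']

theorem Data.rho_z2 (d : Data X I) {x} (h : ∀ i, x ∉ d.D i) (h' : x ∉ d.G) :
    d.rho x = z2 := by
  classical
  rw [Data.rho, dif_neg (by push Not; exact h), if_neg (fun hh => h' (d.HG hh)), if_neg h']

theorem Data.continuous_rho (d : Data X I) : Continuous d.rho := by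
  classical
  rw [continuous_def]
  intro U hU
  obtain ⟨h1, h2, h3, h4, h5⟩ := isOpen_iff.1 hU
  rw [isOpen_iff_forall_mem_open]
  intro x hx
  have hfin : ∀ F : Set I, F.Finite → IsOpen (⋂ i ∈ F, (d.D i)ᶜ) := fun F hF =>
    hF.isOpen_biInter fun i _ => (d.closedD i).isOpen_compl
  by_cases hD : ∃ i, x ∈ d.D i
  · obtain ⟨i, hi⟩ := hD
    by_cases hE : x ∈ d.E i
    · refine ⟨d.E i, fun y hy => ?_, d.openE i, hE⟩
      have : u i ∈ U := by rw [← d.rho_E hE]; exact hx
      rw [mem_preimage, d.rho_E hy]; exact this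
    · refine ⟨d.D i, fun y hy => ?_, d.openD i, hi⟩
      have hw : w i ∈ U := by rw [← d.rho_D hi hE]; exact hx
      rw [mem_preimage]
      by_cases hyE : y ∈ d.E i
      · rw [d.rho_E hyE]; exact h1 i hw
      · rw [d.rho_D hy hyE]; exact hw
  · push Not at hD
    by_cases hH : x ∈ d.H
    · have hz : z0 ∈ U := by rw [← d.rho_z0 hD hH]; exact hx
      refine ⟨d.H ∩ ⋂ i ∈ {i | u i ∉ U}, (d.D i)ᶜ, ?_, d.openH.inter (hfin _ (h4 hz)),
        ⟨hH, by simp only [mem_iInter]; exact fun i _ => hD i⟩⟩
      rintro y ⟨hy1, hy2⟩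
      simp only [mem_iInter, mem_ofPred_eq, mem_compl_iff] at hy2
      rw [mem_preimage]
      by_cases hyD : ∃ i, y ∈ d.D i
      · obtain ⟨i, hi⟩ := hyD
        have : u i ∈ U := by
          by_contra hh; exact hy2 i hh hi
        rw [d.rho_E (d.GD i ⟨d.HG hy1, hi⟩)]
        exact this
      · push Not at hyD
        rw [d.rho_z0 hyD hy1]; exact hz
    · by_cases hG : x ∈ d.G
      · have hz : z1 ∈ U := by rw [← d.rho_z1 hD hH hG]; exact hx
        have hz0 := h3 hz
        refine ⟨d.G ∩ ⋂ i ∈ {i | u i ∉ U}, (d.D i)ᶜ, ?_, d.openG.inter (hfin _ (h4 hz0)),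
          ⟨hG, by simp only [mem_iInter]; exact fun i _ => hD i⟩⟩
        rintro y ⟨hy1, hy2⟩
        simp only [mem_iInter, mem_ofPred_eq, mem_compl_iff] at hy2
        rw [mem_preimage]
        by_cases hyD : ∃ i, y ∈ d.D i
        · obtain ⟨i, hi⟩ := hyD
          have : u i ∈ U := by
            by_contra hh; exact hy2 i hh hi
          rw [d.rho_E (d.GD i ⟨hy1, hi⟩)]
          exact this
        · push Not at hyD
          by_cases hyH : y ∈ d.H
          · rw [d.rho_z0 hyD hyH]; exact hz0
          · rw [d.rho_z1 hyD hyH hy1]; exact hz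
      · have hz : z2 ∈ U := by rw [← d.rho_z2 hD hG]; exact hx
        have hz1 := h2 hz
        have hz0 := h3 hz1
        refine ⟨⋂ i ∈ {i | w i ∉ U} ∪ {i | u i ∉ U}, (d.D i)ᶜ, ?_,
          hfin _ ((h5 hz).union (h4 hz0)), by simp only [mem_iInter]; exact fun i _ => hD i⟩
        intro y hy2
        simp only [mem_iInter, mem_ofPred_eq, mem_compl_iff, mem_union] at hy2
        rw [mem_preimage]
        by_cases hyD : ∃ i, y ∈ d.D i
        · obtain ⟨i, hi⟩ := hyD
          have hui : u i ∈ U := by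
            by_contra hh; exact hy2 i (Or.inr hh) hi
          have hwi : w i ∈ U := by
            by_contra hh; exact hy2 i (Or.inl hh) hi
          by_cases hyE : y ∈ d.E i
          · rw [d.rho_E hyE]; exact hui
          · rw [d.rho_D hi hyE]; exact hwi
        · push Not at hyD
          by_cases hyH : y ∈ d.H
          · rw [d.rho_z0 hyD hyH]; exact hz0
          · by_cases hyG : y ∈ d.G
            · rw [d.rho_z1 hyD hyH hyG]; exact hz1
            · rw [d.rho_z2 hyD hyG]; exact hz

/-- A continuous map with a continuous section makes the image of the section a retract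
homeomorphic to the target. -/
theorem retract_of_section {Y : Type*} [TopologicalSpace Y] (ρ : X → Y) (σ : Y → X)
    (hρ : Continuous ρ) (hσ : Continuous σ) (h : ∀ y, ρ (σ y) = y) :
    IsRetract (range σ) ∧ ∃ e : Y ≃ₜ range σ, ∀ y, (e y : X) = σ y := by
  refine ⟨⟨fun x => ⟨σ (ρ x), mem_range_self _⟩, (hσ.comp hρ).subtype_mk _, ?_⟩, ?_⟩
  · rintro ⟨_, y, rfl⟩
    apply Subtype.ext
    simp [h]
  · exact ⟨{ toFun := fun y => ⟨σ y, mem_range_self _⟩
             invFun := fun x => ρ x.1
             left_inv := h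
             right_inv := by
               rintro ⟨_, y, rfl⟩
               apply Subtype.ext
               simp [h]
             continuous_toFun := hσ.subtype_mk _
             continuous_invFun := hρ.comp continuous_subtype_val }, fun y => rfl⟩

end Retraction

/-- A continuous map is spectral as soon as the preimages of the members of a subbasis are
compact. -/
theorem spectral_of_generateFrom {X Z : Type*} [TopologicalSpace X] [CompactSpace X]
    [QuasiSeparatedSpace X] [t : TopologicalSpace Z] {s : Set (Set Z)}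
    (hs : t = TopologicalSpace.generateFrom s) {f : X → Z} (hf : Continuous f)
    (h : ∀ u ∈ s, IsCompact (f ⁻¹' u)) : IsSpectralMap f := by
  have hopen : ∀ u ∈ s, IsOpen u := by
    intro u hu
    rw [hs]
    exact TopologicalSpace.isOpen_generateFrom_of_mem hu
  have hb := TopologicalSpace.isTopologicalBasis_of_subbasis hs
  have hfin : ∀ F : Set (Set Z), F.Finite → F ⊆ s →
      IsCompact (f ⁻¹' ⋂₀ F) ∧ IsOpen (f ⁻¹' ⋂₀ F) := by
    intro F hF
    induction F, hF using Set.Finite.induction_on with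
    | empty =>
      intro _
      simp [isCompact_univ]
    | @insert a F _ _ ih =>
      intro hsub
      obtain ⟨h1, h2⟩ := ih ((subset_insert _ _).trans hsub)
      have ha : a ∈ s := hsub (mem_insert _ _)
      have hoa := (hopen a ha).preimage hf
      rw [sInter_insert, preimage_inter]
      exact ⟨QuasiSeparatedSpace.inter_isCompact _ _ hoa (h a ha) h2 h1, hoa.inter h2⟩
  refine ⟨hf, fun K hK hKc => ?_⟩
  let J := {B : Set Z // B ∈ ((fun f => ⋂₀ f) '' {F : Set (Set Z) | F.Finite ∧ F ⊆ s}) ∧ B ⊆ K}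
  obtain ⟨T, hT⟩ := hKc.elim_finite_subcover (fun B : J => B.1) (fun B => hb.isOpen B.2.1) (by
    intro x hx
    obtain ⟨B, hB, hxB, hBK⟩ := hb.exists_subset_of_mem_open hx hK
    exact mem_iUnion.2 ⟨⟨B, hB, hBK⟩, hxB⟩)
  have hKeq : f ⁻¹' K = ⋃ B ∈ T, f ⁻¹' (B : J).1 := by
    ext x
    constructor
    · intro hx
      obtain ⟨B, hB, hxB⟩ := mem_iUnion₂.1 (hT hx)
      exact mem_iUnion₂.2 ⟨B, hB, hxB⟩
    · intro hx
      obtain ⟨B, hB, hxB⟩ := mem_iUnion₂.1 hx
      exact B.2.2 hxB
  rw [hKeq]
  refine T.isCompact_biUnion fun B _ => ?_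
  obtain ⟨F, ⟨hF1, hF2⟩, hF3⟩ := B.2.1
  rw [← hF3]
  exact (hfin F hF1 hF2).1

theorem spectral_val {X : Type*} [TopologicalSpace X] {σ : Pt I → X} (hσ : IsSpectralMap σ)
    (e : Pt I ≃ₜ range σ) (he : ∀ y, (e y : X) = σ y) :
    IsSpectralMap (Subtype.val : range σ → X) := by
  refine ⟨continuous_subtype_val, fun K hK hKc => ?_⟩
  have h1 := hσ.isCompact_preimage_of_isOpen hK hKc
  have h2 : Subtype.val ⁻¹' K = e '' (σ ⁻¹' K) := by
    ext x
    constructor
    · intro hx
      refine ⟨e.symm x, ?_, e.apply_symm_apply x⟩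
      rw [mem_preimage, ← he, e.apply_symm_apply]
      exact hx
    · rintro ⟨y, hy, rfl⟩
      rw [mem_preimage, he]
      exact hy
  rw [h2]
  exact h1.image e.continuous

end Pt

end Retr
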